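import Mathlib

set_option autoImplicit false

/-!
# Random restrictions of conjunctions

The coordinates are cut into blocks of `D` coordinates; a random restriction chooses one alive
coordinate in every block, and random bits for the other coordinates.
-/

namespace Pool.Agent.H58.PM

open Finset

/-- A restriction: in every block an alive coordinate, and bits for the other coordinates. -/
abbrev Res (β : Type) (D : ℕ) : Type := β → Fin D × (Fin D → Bool)

variable {β : Type} {D : ℕ}

/-- All literals of `E` at dead coordinates are satisfied. -/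
def DeadOk (E : Finset ((β × Fin D) × Bool)) (θ : Res β D) : Prop :=
  ∀ t ∈ E, t.1.2 ≠ (θ t.1.1).1 → (θ t.1.1).2 t.1.2 = t.2

open Classical in
/-- The blocks whose alive coordinate occurs in `E`. -/
noncomputable def aliveBlocks [Fintype β] (E : Finset ((β × Fin D) × Bool)) (θ : Res β D) :
    Finset β :=
  Finset.univ.filter fun b => ∃ s, ((b, (θ b).1), s) ∈ E

theorem mem_aliveBlocks [Fintype β] (E : Finset ((β × Fin D) × Bool)) (θ : Res β D) (b : β) :
    b ∈ aliveBlocks E θ ↔ ∃ s, ((b, (θ b).1), s) ∈ E := by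
  classical
  unfold aliveBlocks
  rw [Finset.mem_filter]
  simp

/-- The restricted conjunction is not killed and has more than `t` alive blocks. -/
def Bad [Fintype β] (E : Finset ((β × Fin D) × Bool)) (t : ℕ) (θ : Res β D) : Prop :=
  DeadOk E θ ∧ t < (aliveBlocks E θ).card

open Classical in
theorem card_constraint (Z : Finset (Fin D)) (C : Fin D → Bool → Prop)
    (hC : ∀ z ∈ Z, ∃ s, C z s) :
    (Finset.univ.filter fun ρ : Fin D → Bool => ∀ z ∈ Z, ∀ s, C z s → ρ z = s).card * 2 ^ Z.card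
      ≤ 2 ^ D := by
  choose! s0 hs0 using hC
  have h1 : (Finset.univ.filter fun ρ : Fin D → Bool => ∀ z ∈ Z, ∀ s, C z s → ρ z = s) ⊆
      Fintype.piFinset (fun z => if z ∈ Z then {s0 z} else (Finset.univ : Finset Bool)) := by
    intro ρ hρ
    rw [Fintype.mem_piFinset]
    intro z
    by_cases hz : z ∈ Z
    · rw [if_pos hz, Finset.mem_singleton]
      exact (Finset.mem_filter.1 hρ).2 z hz _ (hs0 z hz)
    · rw [if_neg hz]; exact Finset.mem_univ _
  have h2 := Finset.card_le_card h1
  rw [Fintype.card_piFinset] at h2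
  have h3 : (∏ z : Fin D, (if z ∈ Z then ({s0 z} : Finset Bool) else Finset.univ).card) *
      2 ^ Z.card = 2 ^ D := by
    have h4 : ∀ z : Fin D, (if z ∈ Z then ({s0 z} : Finset Bool) else Finset.univ).card =
        if z ∈ Z then 1 else 2 := by
      intro z; split_ifs <;> simp
    simp_rw [h4]
    have h5 : (2 : ℕ) ^ Z.card = ∏ z : Fin D, if z ∈ Z then 2 else 1 := by
      rw [Finset.prod_ite, Finset.prod_const, Finset.prod_const_one, mul_one]
      congr 1
      congr 1
      ext z; simp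
    rw [h5, ← Finset.prod_mul_distrib]
    have h6 : ∀ z : Fin D, (if z ∈ Z then (1:ℕ) else 2) * (if z ∈ Z then 2 else 1) = 2 := by
      intro z; split_ifs <;> rfl
    simp_rw [h6]
    simp
  calc _ ≤ (∏ z : Fin D, (if z ∈ Z then ({s0 z} : Finset Bool) else Finset.univ).card) *
      2 ^ Z.card := Nat.mul_le_mul_right _ h2
    _ = _ := h3

open Classical in
/-- The weight of one block. -/
noncomputable def wt (E : Finset ((β × Fin D) × Bool)) (b : β) (x : Fin D × (Fin D → Bool)) : ℝ :=
  (if ∃ s, ((b, x.1), s) ∈ E then (D : ℝ) / 2 else 1) *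
    (if ∀ z ≠ x.1, ∀ s, ((b, z), s) ∈ E → x.2 z = s then 1 else 0)

theorem wt_nonneg (E : Finset ((β × Fin D) × Bool)) (b : β) (x : Fin D × (Fin D → Bool)) :
    0 ≤ wt E b x := by
  unfold wt
  apply mul_nonneg
  · split_ifs <;> positivity
  · split_ifs <;> positivity

open Classical in
theorem sum_wt (hD : 0 < D) (E : Finset ((β × Fin D) × Bool)) (b : β) :
    ∑ x : Fin D × (Fin D → Bool), wt E b x ≤ D * 2 ^ D := by
  set Z : Finset (Fin D) := Finset.univ.filter fun z => ∃ s, ((b, z), s) ∈ E with hZ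
  set w := Z.card with hw
  have hwD : w ≤ D := by
    have := Finset.card_le_univ Z
    simpa using this
  have hDr : (0 : ℝ) < D := by exact_mod_cast hD
  rw [Fintype.sum_prod_type]
  have hz : ∀ z : Fin D, ∑ ρ : Fin D → Bool, wt E b (z, ρ) ≤
      if z ∈ Z then (D : ℝ) * (2 ^ D / 2 ^ w) else 2 ^ D / 2 ^ w := by
    intro z
    obtain ⟨c, hc⟩ : ∃ c : ℕ, c = (Finset.univ.filter fun ρ : Fin D → Bool =>
          ∀ z' ∈ Z.erase z, ∀ s, ((b, z'), s) ∈ E → ρ z' = s).card := ⟨_, rfl⟩
    have e1 : ∀ ρ : Fin D → Bool, wt E b (z, ρ) = (if z ∈ Z then (D : ℝ) / 2 else 1) *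
        (if ∀ z' ∈ Z.erase z, ∀ s, ((b, z'), s) ∈ E → ρ z' = s then 1 else 0) := by
      intro ρ
      have e2 : (∀ z' ≠ z, ∀ s, ((b, z'), s) ∈ E → ρ z' = s) ↔
          ∀ z' ∈ Z.erase z, ∀ s, ((b, z'), s) ∈ E → ρ z' = s := by
        simp only [Finset.mem_filter, Finset.mem_univ, true_and, Finset.mem_erase, hZ]
        constructor
        · intro h z' hz' s hs
          exact h z' hz'.1 s hs
        · intro h z' hz' s hs
          exact h z' ⟨hz', s, hs⟩ s hs
      have e3 : (∃ s, ((b, z), s) ∈ E) ↔ z ∈ Z := by simp [hZ]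
      unfold wt
      simp only [e2, e3]
    have h1 : ∑ ρ : Fin D → Bool, wt E b (z, ρ) = (if z ∈ Z then (D : ℝ) / 2 else 1) * c := by
      simp_rw [e1]
      rw [← Finset.mul_sum, Finset.sum_boole, hc]
    rw [h1]
    have h2 := card_constraint (Z.erase z) (fun z' s => ((b, z'), s) ∈ E) (by
      intro z' hz'
      exact (Finset.mem_filter.1 (Finset.mem_of_mem_erase hz')).2)
    have h2' : c * 2 ^ (Z.erase z).card ≤ 2 ^ D := by
      rw [hc]
      convert h2
    have h3 : (c : ℝ) * 2 ^ (Z.erase z).card ≤ 2 ^ D := by exact_mod_cast h2'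
    by_cases hzZ : z ∈ Z
    · rw [if_pos hzZ, if_pos hzZ]
      rw [Finset.card_erase_of_mem hzZ, ← hw] at h3
      have hw0 : 0 < w := Finset.card_pos.2 ⟨z, hzZ⟩
      have h4 : (2 : ℝ) ^ w = 2 * 2 ^ (w - 1) := by
        rw [← pow_succ']
        congr 1
        omega
      rw [h4]
      have h5 : (0 : ℝ) < 2 ^ (w - 1) := by positivity
      rw [← le_div_iff₀ h5] at h3
      calc (D : ℝ) / 2 * c ≤ D / 2 * (2 ^ D / 2 ^ (w - 1)) := by gcongr
        _ = D * (2 ^ D / (2 * 2 ^ (w - 1))) := by field_simp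
    · rw [if_neg hzZ, if_neg hzZ, one_mul]
      rw [Finset.erase_eq_of_notMem hzZ, ← hw] at h3
      have h5 : (0 : ℝ) < 2 ^ w := by positivity
      rw [le_div_iff₀ h5]
      exact h3
  calc ∑ z : Fin D, ∑ ρ : Fin D → Bool, wt E b (z, ρ)
      ≤ ∑ z : Fin D, (if z ∈ Z then (D : ℝ) * (2 ^ D / 2 ^ w) else 2 ^ D / 2 ^ w) :=
        Finset.sum_le_sum fun z _ => hz z
    _ ≤ ∑ z : Fin D, ((if z ∈ Z then (D : ℝ) * (2 ^ D / 2 ^ w) else 0) + 2 ^ D / 2 ^ w) := by
        apply Finset.sum_le_sum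
        intro z _
        have h6 : (0 : ℝ) ≤ 2 ^ D / 2 ^ w := by positivity
        split_ifs <;> linarith
    _ = w * (D * (2 ^ D / 2 ^ w)) + D * (2 ^ D / 2 ^ w) := by
        rw [Finset.sum_add_distrib, ← Finset.sum_filter, Finset.sum_const, Finset.sum_const,
          Finset.card_univ, Fintype.card_fin, nsmul_eq_mul, nsmul_eq_mul]
        congr 3
        rw [hw]
        congr 1
        ext z
        simp
    _ = (w + 1) * (D * (2 ^ D / 2 ^ w)) := by ring
    _ ≤ 2 ^ w * (D * (2 ^ D / 2 ^ w)) := by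
        have h7 : ((w + 1 : ℕ) : ℝ) ≤ ((2 ^ w : ℕ) : ℝ) := by
          exact_mod_cast Nat.lt_two_pow_self (n := w)
        push_cast at h7
        gcongr
    _ = D * 2 ^ D := by
        have h8 : (0 : ℝ) < 2 ^ w := by positivity
        field_simp

open Classical in
/-- A conjunction is rarely bad. -/
theorem card_bad [Fintype β] [DecidableEq β] (hD : 2 ≤ D) (E : Finset ((β × Fin D) × Bool)) (t : ℕ) :
    ((D : ℝ) / 2) ^ (t + 1) * (Finset.univ.filter fun θ : Res β D => Bad E t θ).card ≤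
      Fintype.card (Res β D) := by
  have hDr : (2 : ℝ) ≤ D := by exact_mod_cast hD
  have hone : (1 : ℝ) ≤ (D : ℝ) / 2 := by linarith
  have h1 : ∑ θ : Res β D, ∏ b : β, wt E b (θ b) = ∏ b : β, ∑ x, wt E b x := by
    have h2 := Finset.prod_univ_sum (fun _ : β => (Finset.univ : Finset (Fin D × (Fin D → Bool))))
      (fun (b : β) x => wt E b x)
    rw [Fintype.piFinset_univ] at h2
    exact h2.symm
  have h2 : ∏ b : β, ∑ x, wt E b x ≤ Fintype.card (Res β D) := by
    calc ∏ b : β, ∑ x, wt E b x ≤ ∏ _b : β, ((D : ℝ) * 2 ^ D) := by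
          apply Finset.prod_le_prod
          · intro b _; exact Finset.sum_nonneg fun x _ => wt_nonneg E b x
          · intro b _; exact sum_wt (by omega) E b
      _ = Fintype.card (Res β D) := by
          rw [Finset.prod_const, Finset.card_univ, Fintype.card_fun, Fintype.card_prod,
            Fintype.card_fin, Fintype.card_fun, Fintype.card_bool, Fintype.card_fin]
          push_cast
          rfl
  have h3 : ∀ θ : Res β D, Bad E t θ → ((D : ℝ) / 2) ^ (t + 1) ≤ ∏ b : β, wt E b (θ b) := by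
    intro θ hθ
    obtain ⟨hdead, ht⟩ := hθ
    have h4 : ∀ b, wt E b (θ b) = if b ∈ aliveBlocks E θ then (D : ℝ) / 2 else 1 := by
      intro b
      unfold wt aliveBlocks
      rw [if_pos (show ∀ z ≠ (θ b).1, ∀ s, ((b, z), s) ∈ E → (θ b).2 z = s from
        fun z hz s hs => hdead _ hs hz)]
      simp
    simp_rw [h4]
    rw [Finset.prod_ite, Finset.prod_const, Finset.prod_const_one, mul_one]
    have h5 : (Finset.univ.filter fun b => b ∈ aliveBlocks E θ) = aliveBlocks E θ := by
      ext b; simp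
    rw [h5]
    exact pow_le_pow_right₀ hone ht
  calc ((D : ℝ) / 2) ^ (t + 1) * (Finset.univ.filter fun θ : Res β D => Bad E t θ).card
      = ∑ _θ ∈ Finset.univ.filter fun θ : Res β D => Bad E t θ, ((D : ℝ) / 2) ^ (t + 1) := by
        rw [Finset.sum_const, nsmul_eq_mul, mul_comm]
    _ ≤ ∑ θ ∈ Finset.univ.filter fun θ : Res β D => Bad E t θ, ∏ b : β, wt E b (θ b) :=
        Finset.sum_le_sum fun θ hθ => h3 θ (Finset.mem_filter.1 hθ).2
    _ ≤ ∑ θ : Res β D, ∏ b : β, wt E b (θ b) := by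
        apply Finset.sum_le_sum_of_subset_of_nonneg (Finset.subset_univ _)
        intro θ _ _
        exact Finset.prod_nonneg fun b _ => wt_nonneg E b _
    _ = ∏ b : β, ∑ x, wt E b x := h1
    _ ≤ _ := h2

/-- A conjunction is rarely bad. -/
theorem card_bad_le [Fintype β] [DecidableEq β] (hD : 2 ≤ D) (E : Finset ((β × Fin D) × Bool))
    (t : ℕ) (S : Finset (Res β D)) (hS : ∀ θ ∈ S, Bad E t θ) :
    ((D : ℝ) / 2) ^ (t + 1) * S.card ≤ Fintype.card (Res β D) := by
  classical
  refine le_trans ?_ (card_bad hD E t)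
  have h1 : S.card ≤ (Finset.univ.filter fun θ : Res β D => Bad E t θ).card :=
    Finset.card_le_card fun θ hθ => Finset.mem_filter.2 ⟨Finset.mem_univ _, hS θ hθ⟩
  have h2 : (0 : ℝ) ≤ ((D : ℝ) / 2) ^ (t + 1) := by positivity
  exact mul_le_mul_of_nonneg_left (Nat.cast_le.2 h1) h2

end Pool.Agent.H58.PM
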