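import Mathlib
import Pool.Agent.H58.PM.Restr

set_option autoImplicit false

/-!
# Conjunctions of few literals and restricted conjunctions
-/

namespace Pool.Agent.H58.PM

open Finset

/-- The conjunction of the literals `u κ = b` for `τ κ = some b`. -/
def Val {k : ℕ} (τ : Fin k → Option Bool) (u : Fin k → Bool) : Prop :=
  ∀ κ b, τ κ = some b → u κ = b

/-- The number of literals of a conjunction. -/
def size {k : ℕ} (τ : Fin k → Option Bool) : ℕ := (Finset.univ.filter fun κ => τ κ ≠ none).card

/-- Few conjunctions have at most `j` literals out of `8 j` variables. -/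
theorem card_terms (j : ℕ) :
    Fintype.card {τ : Fin (8 * j) → Option Bool // size τ ≤ j} ≤ 64 ^ j := by
  have h1 : ∑ τ : Fin (8 * j) → Option Bool, ∏ κ : Fin (8 * j),
      (if τ κ = none then 16 else 1) = 18 ^ (8 * j) := by
    have h3 := Finset.prod_univ_sum (fun _ : Fin (8 * j) => (Finset.univ : Finset (Option Bool)))
      (fun (_ : Fin (8 * j)) (b : Option Bool) => if b = none then 16 else 1)
    rw [Fintype.piFinset_univ] at h3
    rw [← h3, Finset.prod_const, Finset.card_univ, Fintype.card_fin]
    congr 1
  have h2 : ∀ τ : Fin (8 * j) → Option Bool, size τ ≤ j →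
      16 ^ (7 * j) ≤ ∏ κ : Fin (8 * j), (if τ κ = none then 16 else 1) := by
    intro τ hτ
    rw [Finset.prod_ite, Finset.prod_const, Finset.prod_const_one, mul_one]
    apply Nat.pow_le_pow_right (by norm_num)
    have h4 : (Finset.univ.filter fun κ => τ κ = none).card + size τ = 8 * j := by
      unfold size
      rw [Finset.card_filter_add_card_filter_not, Finset.card_univ, Fintype.card_fin]
    omega
  have h3 : Fintype.card {τ : Fin (8 * j) → Option Bool // size τ ≤ j} * 16 ^ (7 * j) ≤
      18 ^ (8 * j) := by
    rw [← h1, Fintype.card_subtype, ← smul_eq_mul, ← Finset.sum_const]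
    calc ∑ _τ ∈ Finset.univ.filter fun τ : Fin (8 * j) → Option Bool => size τ ≤ j, 16 ^ (7 * j)
        ≤ ∑ τ ∈ Finset.univ.filter fun τ : Fin (8 * j) → Option Bool => size τ ≤ j,
            ∏ κ : Fin (8 * j), (if τ κ = none then 16 else 1) :=
          Finset.sum_le_sum fun τ hτ => h2 τ (Finset.mem_filter.1 hτ).2
      _ ≤ _ := Finset.sum_le_sum_of_subset (Finset.subset_univ _)
  have h4 : 18 ^ (8 * j) ≤ 64 ^ j * 16 ^ (7 * j) := by
    rw [pow_mul, pow_mul, ← mul_pow]
    exact Nat.pow_le_pow_left (by norm_num) j
  exact Nat.le_of_mul_le_mul_right (h3.trans h4) (by positivity)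

variable {k D : ℕ}

/-- The data bits of the vector which encodes `u`: the alive coordinate of the block `(κ, σ)`
holds the truth value of `u κ = σ`, the others hold the bits of the restriction. -/
def encA (θ : Res (Fin k × Bool) D) (u : Fin k → Bool) : (Fin k × Bool) × Fin D → Bool := fun x =>
  if x.2 = (θ x.1).1 then decide (u x.1.1 = x.1.2) else (θ x.1).2 x.2

/-- The data bits of the vector which is orthogonal to the vector of `v` only. -/
def encB (θ : Res (Fin k × Bool) D) (v : Fin k → Bool) : (Fin k × Bool) × Fin D → Bool := fun x =>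
  if x.2 = (θ x.1).1 then decide (v x.1.1 ≠ x.1.2) else false

theorem encA_encB (θ : Res (Fin k × Bool) D) (u v : Fin k → Bool) :
    (∀ x, ¬ (encA θ u x = true ∧ encB θ v x = true)) ↔ u = v := by
  constructor
  · intro h
    funext κ
    by_contra hne
    have h1 := h ((κ, u κ), (θ (κ, u κ)).1)
    apply h1
    unfold encA encB
    simp only [if_true, decide_true, true_and]
    exact decide_eq_true (fun h2 => hne h2.symm)
  · rintro rfl x ⟨h1, h2⟩
    unfold encA at h1
    unfold encB at h2
    by_cases hx : x.2 = (θ x.1).1
    · rw [if_pos hx] at h1 h2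
      exact (of_decide_eq_true h2) (of_decide_eq_true h1)
    · rw [if_neg hx] at h2
      exact absurd h2 (by simp)

/-- The value of `u κ` required by the alive literals of `E` at the blocks of `κ`. -/
def Req (E : Finset (((Fin k × Bool) × Fin D) × Bool)) (θ : Res (Fin k × Bool) D) (κ : Fin k)
    (v : Bool) : Prop :=
  ∃ σ s, (((κ, σ), (θ (κ, σ)).1), s) ∈ E ∧ (s == σ) = v

theorem conj_iff (E : Finset (((Fin k × Bool) × Fin D) × Bool)) (θ : Res (Fin k × Bool) D)
    (hE : DeadOk E θ) (u : Fin k → Bool) :
    (∀ t ∈ E, encA θ u t.1 = t.2) ↔ ∀ κ v, Req E θ κ v → u κ = v := by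
  constructor
  · rintro h κ v ⟨σ, s, hs, rfl⟩
    have h1 := h _ hs
    unfold encA at h1
    simp only [if_true] at h1
    cases s <;> cases σ <;> cases hu : u κ <;> simp_all
  · rintro h ⟨⟨⟨κ, σ⟩, z⟩, s⟩ ht
    unfold encA
    by_cases hz : z = (θ (κ, σ)).1
    · rw [if_pos hz]
      subst hz
      have h1 := h κ _ ⟨σ, s, ht, rfl⟩
      cases s <;> cases σ <;> cases hu : u κ <;> simp_all
    · rw [if_neg hz]
      exact hE _ ht hz

open Classical in
/-- A conjunction which is not bad is, after the restriction, `0` or a conjunction of few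
literals. -/
theorem exists_term (E : Finset (((Fin k × Bool) × Fin D) × Bool)) (θ : Res (Fin k × Bool) D)
    (t : ℕ) (hE : ¬ Bad E t θ) :
    (∀ u, ¬ ∀ x ∈ E, encA θ u x.1 = x.2) ∨
    ∃ τ : Fin k → Option Bool, size τ ≤ t ∧ ∀ u, (∀ x ∈ E, encA θ u x.1 = x.2) ↔ Val τ u := by
  by_cases hdead : DeadOk E θ
  · have hal : (aliveBlocks E θ).card ≤ t := by
      by_contra hcon
      exact hE ⟨hdead, not_le.1 hcon⟩
    by_cases hcf : ∃ κ, Req E θ κ true ∧ Req E θ κ false
    · left
      obtain ⟨κ, h1, h2⟩ := hcf
      intro u hu
      have h3 := (conj_iff E θ hdead u).1 hu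
      have h4 := h3 κ _ h1
      have h5 := h3 κ _ h2
      rw [h4] at h5
      exact absurd h5 (by simp)
    · right
      push Not at hcf
      refine ⟨fun κ => if Req E θ κ true then some true else
        if Req E θ κ false then some false else none, ?_, ?_⟩
      · refine le_trans ?_ hal
        unfold size
        refine (Finset.card_le_card ?_).trans
          (Finset.card_image_le (s := aliveBlocks E θ) (f := Prod.fst))
        intro κ hκ
        have h1 := (Finset.mem_filter.1 hκ).2
        simp only at h1
        have h2 : ∃ v, Req E θ κ v := by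
          by_cases ha : Req E θ κ true
          · exact ⟨_, ha⟩
          · by_cases hb : Req E θ κ false
            · exact ⟨_, hb⟩
            · rw [if_neg ha, if_neg hb] at h1
              exact absurd rfl h1
        obtain ⟨v, σ, s, hs, _⟩ := h2
        rw [Finset.mem_image]
        exact ⟨(κ, σ), (mem_aliveBlocks E θ _).2 ⟨s, hs⟩, rfl⟩
      · intro u
        rw [conj_iff E θ hdead u]
        unfold Val
        constructor
        · intro h κ b hb
          simp only at hb
          split_ifs at hb with ha hc
          · rw [← Option.some.inj hb]; exact h κ _ ha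
          · rw [← Option.some.inj hb]; exact h κ _ hc
        · intro h κ v hv
          apply h κ v
          simp only
          cases v
          · rw [if_neg (fun ha => hcf κ ha hv), if_pos hv]
          · rw [if_pos hv]
  · left
    intro u hu
    apply hdead
    intro x hx hne
    have h1 := hu x hx
    unfold encA at h1
    rwa [if_neg hne] at h1

end Pool.Agent.H58.PM
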