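import Mathlib

set_option autoImplicit false

/-!
# Few predicates agree with few functions on more than `5/8` of the points
-/

namespace Pool.Agent.H58.PM

open Finset

open Classical in
/-- The number of points at which `G` and `S` agree. -/
noncomputable def agree {α : Type} [Fintype α] (G S : Finset α) : ℕ :=
  (Finset.univ.filter fun x => x ∈ G ↔ x ∈ S).card

theorem card_eq_agree {α : Type} [Fintype α] (G S T : Finset α)
    (h : ∀ x, x ∈ T ↔ (x ∈ G ↔ x ∈ S)) : T.card = agree G S := by
  classical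
  unfold agree
  congr 1
  ext x
  rw [h x, Finset.mem_filter]
  simp

theorem agree_le {α : Type} [Fintype α] (G S : Finset α) : agree G S ≤ Fintype.card α :=
  Finset.card_le_univ _

open Classical in
/-- The generating function of the agreements. -/
theorem sum_two_pow_agree {α : Type} [Fintype α] (S : Finset α) :
    ∑ G : Finset α, 2 ^ agree G S = 3 ^ Fintype.card α := by
  have h1 : ∀ G : Finset α, (2 : ℕ) ^ agree G S = ∏ x : α, if (x ∈ G ↔ x ∈ S) then 2 else 1 := by
    intro G
    rw [Finset.prod_ite, Finset.prod_const, Finset.prod_const_one, mul_one]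
    rfl
  simp_rw [h1]
  have h2 : ∑ G : Finset α, ∏ x : α, (if (x ∈ G ↔ x ∈ S) then 2 else 1) =
      ∑ f : α → Bool, ∏ x : α, (if (f x = true ↔ x ∈ S) then 2 else 1) := by
    refine Finset.sum_bij' (fun G _ => fun x => decide (x ∈ G))
      (fun f _ => Finset.univ.filter fun x => f x = true) ?_ ?_ ?_ ?_ ?_
    · intro G _; exact Finset.mem_univ _
    · intro f _; exact Finset.mem_univ _
    · intro G _; ext x; simp
    · intro f _; funext x; simp
    · intro G _; simp
  rw [h2]
  have h3 := Finset.prod_univ_sum (fun _ : α => (Finset.univ : Finset Bool))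
    (fun (x : α) (b : Bool) => if (b = true ↔ x ∈ S) then 2 else 1)
  rw [Fintype.piFinset_univ] at h3
  rw [← h3]
  rw [Finset.prod_congr rfl (g := fun _ => 3)]
  · rw [Finset.prod_const, Finset.card_univ]
  · intro x _
    by_cases hx : x ∈ S <;> simp [hx]

open Classical in
/-- For a family `ℱ` of at most `M` predicates: if every `G` is approximated by a member of `ℱ`,
the average agreement is at most `5/8` plus a small term. -/
theorem agree_bound {α : Type} [Fintype α] {N' M : ℕ} (hN : Fintype.card α = 32 * N')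
    (ℱ : Finset (Finset α)) (hM : ℱ.card ≤ M) (p : Finset α → Finset α) (hp : ∀ G, p G ∈ ℱ) :
    (∑ G : Finset α, (agree G (p G) : ℝ)) ≤
      2 ^ Fintype.card α * Fintype.card α * (5 / 8 + M / 2 ^ N') := by
  set N := Fintype.card α with hNdef
  set 𝒢 : Finset (Finset α) := Finset.univ.filter fun G => ∃ S ∈ ℱ, 5 * N ≤ 8 * agree G S with h𝒢
  -- few `G` agree well
  have hcard : (𝒢.card : ℝ) ≤ M * (2 ^ N / 2 ^ N') := by
    have h1 : 𝒢 ⊆ ℱ.biUnion fun S => Finset.univ.filter fun G => 5 * N ≤ 8 * agree G S := by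
      intro G hG
      obtain ⟨S, hS, h⟩ := (Finset.mem_filter.1 hG).2
      exact Finset.mem_biUnion.2 ⟨S, hS, Finset.mem_filter.2 ⟨Finset.mem_univ _, h⟩⟩
    have h2 : ∀ S : Finset α,
        ((Finset.univ.filter fun G : Finset α => 5 * N ≤ 8 * agree G S).card : ℝ) ≤
          2 ^ N / 2 ^ N' := by
      intro S
      have h3 : (Finset.univ.filter fun G : Finset α => 5 * N ≤ 8 * agree G S).card *
          2 ^ (20 * N') ≤ 3 ^ N := by
        rw [← sum_two_pow_agree S, ← smul_eq_mul, ← Finset.sum_const]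
        calc ∑ _G ∈ Finset.univ.filter fun G : Finset α => 5 * N ≤ 8 * agree G S, 2 ^ (20 * N')
            ≤ ∑ G ∈ Finset.univ.filter fun G : Finset α => 5 * N ≤ 8 * agree G S,
                2 ^ agree G S := by
              apply Finset.sum_le_sum
              intro G hG
              have h4 := (Finset.mem_filter.1 hG).2
              exact Nat.pow_le_pow_right (by norm_num) (by omega)
          _ ≤ ∑ G : Finset α, 2 ^ agree G S :=
              Finset.sum_le_sum_of_subset (Finset.subset_univ _)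
      have h4 : ((Finset.univ.filter fun G : Finset α => 5 * N ≤ 8 * agree G S).card : ℝ) *
          2 ^ (20 * N') ≤ 3 ^ N := by exact_mod_cast h3
      have h5 : (3 : ℝ) ^ N * 2 ^ N' ≤ 2 ^ N * 2 ^ (20 * N') := by
        rw [hN, pow_mul, pow_mul, pow_mul, ← mul_pow, ← mul_pow]
        apply pow_le_pow_left₀ (by norm_num)
        norm_num
      have h6 : (0 : ℝ) < 2 ^ (20 * N') := by positivity
      have h7 : (0 : ℝ) < 2 ^ N' := by positivity
      rw [le_div_iff₀ h7]
      have h8 : ((Finset.univ.filter fun G : Finset α => 5 * N ≤ 8 * agree G S).card : ℝ) *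
          2 ^ N' * 2 ^ (20 * N') ≤ 2 ^ N * 2 ^ (20 * N') := by
        calc ((Finset.univ.filter fun G : Finset α => 5 * N ≤ 8 * agree G S).card : ℝ) *
            2 ^ N' * 2 ^ (20 * N') =
            ((Finset.univ.filter fun G : Finset α => 5 * N ≤ 8 * agree G S).card : ℝ) *
            2 ^ (20 * N') * 2 ^ N' := by ring
          _ ≤ 3 ^ N * 2 ^ N' := by gcongr
          _ ≤ _ := h5
      exact le_of_mul_le_mul_right h8 h6
    calc (𝒢.card : ℝ) ≤ ((ℱ.biUnion fun S =>
          Finset.univ.filter fun G => 5 * N ≤ 8 * agree G S).card : ℝ) := by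
          exact_mod_cast Finset.card_le_card h1
      _ ≤ ((∑ S ∈ ℱ, (Finset.univ.filter fun G : Finset α => 5 * N ≤ 8 * agree G S).card : ℕ) : ℝ)
          := by exact_mod_cast Finset.card_biUnion_le
      _ = ∑ S ∈ ℱ, ((Finset.univ.filter fun G : Finset α => 5 * N ≤ 8 * agree G S).card : ℝ) := by
          push_cast; rfl
      _ ≤ ∑ _S ∈ ℱ, (2 : ℝ) ^ N / 2 ^ N' := Finset.sum_le_sum fun S _ => h2 S
      _ = ℱ.card * ((2 : ℝ) ^ N / 2 ^ N') := by rw [Finset.sum_const, nsmul_eq_mul]
      _ ≤ M * ((2 : ℝ) ^ N / 2 ^ N') := by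
          gcongr
  have hpt : ∀ G : Finset α, (agree G (p G) : ℝ) ≤
      5 / 8 * N + (if G ∈ 𝒢 then (N : ℝ) else 0) := by
    intro G
    by_cases h : G ∈ 𝒢
    · rw [if_pos h]
      have h1 : (agree G (p G) : ℝ) ≤ N := by exact_mod_cast agree_le G (p G)
      have h2 : (0 : ℝ) ≤ N := Nat.cast_nonneg _
      linarith
    · rw [if_neg h]
      have h1 : ¬ 5 * N ≤ 8 * agree G (p G) := fun hcon =>
        h (Finset.mem_filter.2 ⟨Finset.mem_univ _, p G, hp G, hcon⟩)
      have h2 : ((8 * agree G (p G) : ℕ) : ℝ) ≤ ((5 * N : ℕ) : ℝ) := by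
        exact_mod_cast (not_le.1 h1).le
      push_cast at h2
      linarith
  calc (∑ G : Finset α, (agree G (p G) : ℝ))
      ≤ ∑ G : Finset α, (5 / 8 * N + (if G ∈ 𝒢 then (N : ℝ) else 0)) :=
        Finset.sum_le_sum fun G _ => hpt G
    _ = 2 ^ N * (5 / 8 * N) + 𝒢.card * N := by
        rw [Finset.sum_add_distrib, Finset.sum_const, Finset.card_univ, Fintype.card_finset,
          nsmul_eq_mul, ← Finset.sum_filter, Finset.sum_const, nsmul_eq_mul]
        push_cast
        congr 2
        congr 1
        congr 1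
        ext G
        simp
    _ ≤ 2 ^ N * (5 / 8 * N) + (M * (2 ^ N / 2 ^ N')) * N := by gcongr
    _ = _ := by ring

end Pool.Agent.H58.PM
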