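import Mathlib

set_option autoImplicit false

/-!
# The number of sign patterns and of zero patterns of linear forms
-/

namespace Pool.Agent.H58.PM

open Finset

/-- If more points than coefficients are given, the values of the linear forms at these points
satisfy a linear relation. -/
theorem exists_relation {F : Type} [Field F] {α ι : Type} [Fintype ι] (φ : ι → α → F)
    (s : Finset α) (hs : Fintype.card ι < s.card) :
    ∃ r : s → F, r ≠ 0 ∧ ∀ c : ι → F, ∑ x : s, r x * (∑ i, c i * φ i x) = 0 := by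
  classical
  let T : (ι → F) →ₗ[F] (s → F) :=
    { toFun := fun c x => ∑ i, c i * φ i x
      map_add' := by
        intro c c'
        funext x
        simp only [Pi.add_apply, add_mul, Finset.sum_add_distrib]
      map_smul' := by
        intro a c
        funext x
        simp only [Pi.smul_apply, smul_eq_mul, RingHom.id_apply, Finset.mul_sum, mul_assoc] }
  have hlt : LinearMap.range T < ⊤ := by
    rw [lt_top_iff_ne_top]
    intro h
    have h1 := LinearMap.finrank_range_le T
    rw [h, finrank_top, Module.finrank_fintype_fun_eq_card,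
      Module.finrank_fintype_fun_eq_card, Fintype.card_coe] at h1
    omega
  obtain ⟨f, hf0, hf⟩ := Submodule.exists_le_ker_of_lt_top _ hlt
  refine ⟨fun x => f (Pi.single x 1), ?_, ?_⟩
  · intro h
    apply hf0
    refine LinearMap.pi_ext' fun x => ?_
    ext
    simpa using congrFun h x
  · intro c
    have h1 : f (T c) = 0 := hf (LinearMap.mem_range_self T c)
    have h2 : T c = ∑ x : s, T c x • (Pi.single x (1 : F) : s → F) := by
      funext y
      simp [Finset.sum_apply, Pi.single_apply]
    rw [h2, map_sum] at h1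
    simp only [map_smul, smul_eq_mul] at h1
    rw [← h1]
    apply Finset.sum_congr rfl
    intro x _
    rw [mul_comm]
    rfl

open Classical in
/-- The Sauer-Shelah bound in the form in which it is used here. -/
theorem card_le_of_shatters {α : Type} [Fintype α] [DecidableEq α] (𝒜 : Finset (Finset α)) (D : ℕ)
    (h : ∀ s : Finset α, 𝒜.Shatters s → s.card ≤ D) :
    𝒜.card ≤ (Fintype.card α + 1) ^ D := by
  have h1 : 𝒜.card ≤ 𝒜.shatterer.card := card_le_card_shatterer 𝒜
  have h2 : 𝒜.shatterer ⊆ Finset.univ.filter fun s : Finset α => s.card ≤ D := by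
    intro s hs
    rw [mem_shatterer] at hs
    simp [h s hs]
  have h3 : (Finset.univ.filter fun s : Finset α => s.card ≤ D) ⊆
      (Finset.univ : Finset (Fin D → Option α)).image
        (fun f => Finset.univ.filter fun a => ∃ i, f i = some a) := by
    intro s hs
    simp only [Finset.mem_filter, Finset.mem_univ, true_and] at hs
    rw [Finset.mem_image]
    refine ⟨fun i => if h : i.1 < s.card then some ((s.equivFin.symm ⟨i.1, h⟩ : s) : α) else none,
      Finset.mem_univ _, ?_⟩
    ext a
    simp only [Finset.mem_filter, Finset.mem_univ, true_and]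
    constructor
    · rintro ⟨i, hi⟩
      split_ifs at hi with h
      rw [← Option.some.inj hi]
      exact (s.equivFin.symm ⟨i.1, h⟩).2
    · intro ha
      have h4 := (s.equivFin ⟨a, ha⟩).2
      refine ⟨⟨(s.equivFin ⟨a, ha⟩).1, by omega⟩, ?_⟩
      rw [dif_pos h4]
      simp
  calc 𝒜.card ≤ (Finset.univ.filter fun s : Finset α => s.card ≤ D).card :=
        h1.trans (Finset.card_le_card h2)
    _ ≤ ((Finset.univ : Finset (Fin D → Option α)).image
        (fun f => Finset.univ.filter fun a => ∃ i, f i = some a)).card := Finset.card_le_card h3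
    _ ≤ (Finset.univ : Finset (Fin D → Option α)).card := Finset.card_image_le
    _ = (Fintype.card α + 1) ^ D := by
        rw [Finset.card_univ, Fintype.card_fun, Fintype.card_option, Fintype.card_fin]

open Classical in
/-- The number of patterns of nonvanishing. -/
theorem card_ne {F : Type} [Field F] {α ι : Type} [Fintype α] [Fintype ι]
    (φ : ι → α → F) (𝒜 : Finset (Finset α))
    (h𝒜 : ∀ S ∈ 𝒜, ∃ c : ι → F, ∀ x, x ∈ S ↔ ∑ i, c i * φ i x ≠ 0) :
    𝒜.card ≤ (Fintype.card α + 1) ^ Fintype.card ι := by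
  apply card_le_of_shatters
  intro s hs
  by_contra hcon
  push Not at hcon
  obtain ⟨r, hr0, hr⟩ := exists_relation φ s hcon
  obtain ⟨x0, hx0⟩ := Function.ne_iff.1 hr0
  obtain ⟨u, hu, hu2⟩ := hs (show ({x0.1} : Finset α) ⊆ s by simp [x0.2])
  obtain ⟨c, hc⟩ := h𝒜 u hu
  have h1 := hr c
  rw [Finset.sum_eq_single x0] at h1
  · rcases mul_eq_zero.1 h1 with h2 | h2
    · exact hx0 h2
    · have h3 : x0.1 ∈ s ∩ u := by rw [hu2]; simp
      exact (hc x0.1).1 (Finset.mem_inter.1 h3).2 h2
  · intro y _ hy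
    have h2 : y.1 ∉ u := by
      intro h3
      have h4 : y.1 ∈ s ∩ u := Finset.mem_inter.2 ⟨y.2, h3⟩
      rw [hu2, Finset.mem_singleton] at h4
      exact hy (Subtype.ext h4)
    have h3 : ∑ i, c i * φ i y = 0 := by
      by_contra h4
      exact h2 ((hc y.1).2 h4)
    rw [h3, mul_zero]
  · intro h; exact absurd (Finset.mem_univ _) h

open Classical in
/-- The number of patterns of positivity. -/
theorem card_pos' {F : Type} [Field F] [LinearOrder F] [IsStrictOrderedRing F] {α ι : Type}
    [Fintype α] [Fintype ι] (φ : ι → α → F) (𝒜 : Finset (Finset α))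
    (h𝒜 : ∀ S ∈ 𝒜, ∃ c : ι → F, ∀ x, x ∈ S ↔ 0 < ∑ i, c i * φ i x) :
    𝒜.card ≤ (Fintype.card α + 1) ^ Fintype.card ι := by
  apply card_le_of_shatters
  intro s hs
  by_contra hcon
  push Not at hcon
  obtain ⟨r', hr0', hr'⟩ := exists_relation φ s hcon
  obtain ⟨x1, hx1⟩ := Function.ne_iff.1 hr0'
  obtain ⟨r, x0, hx0, hr⟩ : ∃ r : s → F, ∃ x0, 0 < r x0 ∧
      ∀ c : ι → F, ∑ x : s, r x * (∑ i, c i * φ i x) = 0 := by
    rcases lt_or_gt_of_ne hx1 with h | h
    · refine ⟨fun x => - r' x, x1, by simpa using h, fun c => ?_⟩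
      simp only [neg_mul, Finset.sum_neg_distrib, hr' c, neg_zero]
    · exact ⟨r', x1, by simpa using h, hr'⟩
  obtain ⟨u, hu, hu2⟩ := hs (show (Finset.univ.filter fun x : s => 0 < r x).map
    ⟨Subtype.val, Subtype.val_injective⟩ ⊆ s by
      intro x hx
      rw [Finset.mem_map] at hx
      obtain ⟨y, _, rfl⟩ := hx
      exact y.2)
  obtain ⟨c, hc⟩ := h𝒜 u hu
  have hmem : ∀ y : s, y.1 ∈ u ↔ 0 < r y := by
    intro y
    have h1 : y.1 ∈ s ∩ u ↔ y.1 ∈ u := by simp [y.2]
    rw [← h1, hu2, Finset.mem_map]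
    constructor
    · rintro ⟨z, hz, hzy⟩
      have : z = y := Subtype.ext hzy
      rw [← this]
      exact (Finset.mem_filter.1 hz).2
    · intro h
      exact ⟨y, Finset.mem_filter.2 ⟨Finset.mem_univ _, h⟩, rfl⟩
  have h1 := hr c
  have h2 : ∀ y : s, 0 ≤ r y * (∑ i, c i * φ i y) := by
    intro y
    by_cases hy : 0 < r y
    · exact (mul_pos hy ((hc y.1).1 ((hmem y).2 hy))).le
    · have h3 : ¬ 0 < ∑ i, c i * φ i y := fun h => hy ((hmem y).1 ((hc y.1).2 h))
      exact mul_nonneg_of_nonpos_of_nonpos (not_lt.1 hy) (not_lt.1 h3)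
  have h3 : 0 < ∑ x : s, r x * (∑ i, c i * φ i x) :=
    Finset.sum_pos' (fun y _ => h2 y) ⟨x0, Finset.mem_univ _,
      mul_pos hx0 ((hc x0.1).1 ((hmem x0).2 hx0))⟩
  exact absurd h1 h3.ne'

open Classical in
/-- The number of patterns of an arbitrary test over a finite field. -/
theorem card_fin {F : Type} [Field F] [Finite F] {α ι : Type} [Fintype α] [Fintype ι]
    (φ : ι → α → F) (R : F → Prop) (𝒜 : Finset (Finset α))
    (h𝒜 : ∀ S ∈ 𝒜, ∃ c : ι → F, ∀ x, x ∈ S ↔ R (∑ i, c i * φ i x)) :
    𝒜.card ≤ (Nat.card F) ^ Fintype.card ι := by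
  have := Fintype.ofFinite F
  have h1 : 𝒜 ⊆ (Finset.univ : Finset (ι → F)).image
      (fun c => Finset.univ.filter fun x => R (∑ i, c i * φ i x)) := by
    intro S hS
    obtain ⟨c, hc⟩ := h𝒜 S hS
    rw [Finset.mem_image]
    refine ⟨c, Finset.mem_univ _, ?_⟩
    ext x
    simp [hc x]
  calc 𝒜.card ≤ _ := Finset.card_le_card h1
    _ ≤ (Finset.univ : Finset (ι → F)).card := Finset.card_image_le
    _ = (Nat.card F) ^ Fintype.card ι := by
        rw [Finset.card_univ, Fintype.card_fun, Nat.card_eq_fintype_card]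

end Pool.Agent.H58.PM
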