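import Mathlib

set_option autoImplicit false

/-!
# Vectors built from a leading bit, a counter, a flag and data bits
-/

namespace Pool.Agent.H58.PM

variable {d L M : ℕ}

/-- The vector with leading bit `c0`, then the counter, the flag, the data bits and zeros. -/
def lay (d : ℕ) {L M : ℕ} (c0 : Bool) (cnt : Fin L → Bool) (fl : Bool) (dat : Fin M → Bool) :
    Fin d → Bool := fun x =>
  if x.1 = 0 then c0
  else if h : x.1 - 1 < L then cnt ⟨x.1 - 1, h⟩
  else if x.1 = L + 1 then fl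
  else if h : x.1 - (L + 2) < M then dat ⟨x.1 - (L + 2), h⟩
  else false

theorem lay_dat (hd : L + 2 + M ≤ d) (c0 : Bool) (cnt : Fin L → Bool) (fl : Bool)
    (dat : Fin M → Bool) (e : Fin M) :
    lay d c0 cnt fl dat ⟨L + 2 + e.1, by omega⟩ = dat e := by
  unfold lay
  have h1 : ¬ (L + 2 + e.1 = 0) := by omega
  have h2 : ¬ (L + 2 + e.1 - 1 < L) := by omega
  have h3 : ¬ (L + 2 + e.1 = L + 1) := by omega
  have h4 : L + 2 + e.1 - (L + 2) < M := by omega
  simp only [h1, h2, h3, h4, if_false, dif_neg, dif_pos, not_false_iff]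
  congr 1
  ext
  simp

theorem lay_other (c0 : Bool) (cnt : Fin L → Bool) (fl : Bool)
    (dat dat' : Fin M → Bool) (x : Fin d) (hx : ∀ e : Fin M, x.1 ≠ L + 2 + e.1) :
    lay d c0 cnt fl dat x = lay d c0 cnt fl dat' x := by
  unfold lay
  by_cases h1 : x.1 = 0
  · rw [if_pos h1, if_pos h1]
  rw [if_neg h1, if_neg h1]
  by_cases h2 : x.1 - 1 < L
  · rw [dif_pos h2, dif_pos h2]
  rw [dif_neg h2, dif_neg h2]
  by_cases h3 : x.1 = L + 1
  · rw [if_pos h3, if_pos h3]
  rw [if_neg h3, if_neg h3]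
  by_cases h4 : x.1 - (L + 2) < M
  · exact absurd (show x.1 = L + 2 + (x.1 - (L + 2)) by omega) (hx ⟨x.1 - (L + 2), h4⟩)
  rw [dif_neg h4, dif_neg h4]

theorem lay_orth (hd : L + 2 + M ≤ d) (c0 c0' : Bool) (cnt cnt' : Fin L → Bool) (fl fl' : Bool)
    (dat dat' : Fin M → Bool) :
    (∀ x : Fin d, ¬ (lay d c0 cnt fl dat x = true ∧ lay d c0' cnt' fl' dat' x = true)) ↔
      ¬ (c0 = true ∧ c0' = true) ∧ (∀ l, ¬ (cnt l = true ∧ cnt' l = true)) ∧
      ¬ (fl = true ∧ fl' = true) ∧ ∀ e, ¬ (dat e = true ∧ dat' e = true) := by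
  constructor
  · intro h
    refine ⟨?_, ?_, ?_, ?_⟩
    · intro hc
      have h1 := h ⟨0, by omega⟩
      unfold lay at h1
      simp only [if_true] at h1
      exact h1 hc
    · intro l hl
      have h1 := h ⟨l.1 + 1, by omega⟩
      unfold lay at h1
      have h2 : ¬ (l.1 + 1 = 0) := by omega
      have h3 : l.1 + 1 - 1 < L := by omega
      have h4 : (⟨l.1 + 1 - 1, h3⟩ : Fin L) = l := by ext; simp
      simp only [h2, h3, if_false, dif_pos, h4] at h1
      exact h1 hl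
    · intro hf
      have h1 := h ⟨L + 1, by omega⟩
      unfold lay at h1
      have h2 : ¬ (L + 1 = 0) := by omega
      have h3 : ¬ (L + 1 - 1 < L) := by omega
      simp only [h2, h3, if_false, dif_neg, not_false_iff, if_true] at h1
      exact h1 hf
    · intro e he
      have h1 := h ⟨L + 2 + e.1, by omega⟩
      rw [lay_dat hd, lay_dat hd] at h1
      exact h1 he
  · rintro ⟨h1, h2, h3, h4⟩ x ⟨hx, hx'⟩
    unfold lay at hx hx'
    by_cases c1 : x.1 = 0
    · rw [if_pos c1] at hx hx'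
      exact h1 ⟨hx, hx'⟩
    rw [if_neg c1] at hx hx'
    by_cases c2 : x.1 - 1 < L
    · rw [dif_pos c2] at hx hx'
      exact h2 _ ⟨hx, hx'⟩
    rw [dif_neg c2] at hx hx'
    by_cases c3 : x.1 = L + 1
    · rw [if_pos c3] at hx hx'
      exact h3 ⟨hx, hx'⟩
    rw [if_neg c3] at hx hx'
    by_cases c4 : x.1 - (L + 2) < M
    · rw [dif_pos c4] at hx hx'
      exact h4 _ ⟨hx, hx'⟩
    rw [dif_neg c4] at hx
    exact absurd hx (by simp)

theorem lay_lt_lead (hd : 0 < d) (cnt cnt' : Fin L → Bool) (fl fl' : Bool)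
    (dat dat' : Fin M → Bool) :
    toLex (lay d false cnt fl dat) < toLex (lay d true cnt' fl' dat') := by
  refine ⟨⟨0, hd⟩, ?_, ?_⟩
  · intro s hs
    exact absurd hs (by simp [Fin.lt_def])
  · show lay d false cnt fl dat ⟨0, hd⟩ < lay d true cnt' fl' dat' ⟨0, hd⟩
    unfold lay
    simp

theorem lay_lt_cnt (hd : L + 2 + M ≤ d) (c0 : Bool) (cnt cnt' : Fin L → Bool) (fl fl' : Bool)
    (dat dat' : Fin M → Bool)
    (h : ∃ k : Fin L, (∀ l < k, cnt l = cnt' l) ∧ cnt k = false ∧ cnt' k = true) :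
    toLex (lay d c0 cnt fl dat) < toLex (lay d c0 cnt' fl' dat') := by
  obtain ⟨k, hk1, hk2, hk3⟩ := h
  refine ⟨⟨k.1 + 1, by omega⟩, ?_, ?_⟩
  · intro s hs
    have hs' : s.1 < k.1 + 1 := hs
    show lay d c0 cnt fl dat s = lay d c0 cnt' fl' dat' s
    unfold lay
    by_cases h0 : s.1 = 0
    · rw [if_pos h0, if_pos h0]
    · have h1 : s.1 - 1 < L := by omega
      rw [if_neg h0, if_neg h0, dif_pos h1, dif_pos h1]
      exact hk1 _ (by rw [Fin.lt_def]; simp only; omega)
  · show (lay d c0 cnt fl dat ⟨k.1 + 1, by omega⟩ : Bool) <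
      lay d c0 cnt' fl' dat' ⟨k.1 + 1, by omega⟩
    unfold lay
    have h0 : ¬ (k.1 + 1 = 0) := by omega
    have h1 : k.1 + 1 - 1 < L := by omega
    have h2 : (⟨k.1 + 1 - 1, h1⟩ : Fin L) = k := by ext; simp
    simp only [h0, h1, if_false, dif_pos, h2, hk2, hk3]
    decide

theorem sum_toNat_eq_zero_iff (u v : Fin d → Bool) :
    ∑ k : Fin d, (u k).toNat * (v k).toNat = 0 ↔ ∀ k, ¬ (u k = true ∧ v k = true) := by
  rw [Finset.sum_eq_zero_iff]
  constructor
  · intro h k ⟨h1, h2⟩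
    have := h k (Finset.mem_univ k)
    simp [h1, h2] at this
  · intro h k _
    have := h k
    cases hu : u k <;> cases hv : v k <;> simp_all

/-- A strictly increasing list of `n ≤ 2^m` vectors of length `m`. -/
theorem exists_code {n m : ℕ} (h : n ≤ 2 ^ m) :
    ∃ code : Fin n → Fin m → Bool, ∀ i j, i < j →
      ∃ k : Fin m, (∀ l < k, code i l = code j l) ∧ code i k = false ∧ code j k = true := by
  classical
  have hcard : Fintype.card (Lex (Fin m → Bool)) = 2 ^ m := by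
    rw [Fintype.card_lex, Fintype.card_fun, Fintype.card_bool, Fintype.card_fin]
  let e : Fin (2 ^ m) ≃o Lex (Fin m → Bool) := Fintype.orderIsoFinOfCardEq _ hcard
  refine ⟨fun i => ofLex (e (Fin.castLE h i)), fun i j hij => ?_⟩
  have h1 := e.strictMono (show Fin.castLE h i < Fin.castLE h j from hij)
  obtain ⟨k, hk1, hk2⟩ := h1
  refine ⟨k, hk1, ?_⟩
  have hk3 : (ofLex (e (Fin.castLE h i)) k : Bool) < ofLex (e (Fin.castLE h j)) k := hk2
  rw [Bool.lt_iff] at hk3
  exact hk3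

end Pool.Agent.H58.PM
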