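import Mathlib

set_option autoImplicit false

/-!
# Averaging over the random choices of an algorithm
-/

namespace Pool.Agent.H58.PM

open Classical in
theorem exists_good {Ω : Type} (μ : PMF Ω) {T : Type} [Fintype T] (good : Ω → T → Prop)
    (hx : ∀ τ, (2 / 3 : ENNReal) ≤ μ.toOuterMeasure {P | good P τ}) :
    ∃ P ∈ μ.support,
      3 * (Finset.univ.filter fun τ => ¬ good P τ).card ≤ Fintype.card T := by
  by_contra hcon
  push Not at hcon
  have herr : ∀ τ, μ.toOuterMeasure {P | ¬ good P τ} ≤ 1 / 3 := by
    intro τ
    have h1 : μ.toOuterMeasure {P | good P τ} + μ.toOuterMeasure {P | ¬ good P τ} = 1 := by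
      rw [PMF.toOuterMeasure_apply, PMF.toOuterMeasure_apply, ← ENNReal.tsum_add,
        ← PMF.tsum_coe μ]
      congr 1
      funext P
      by_cases h : good P τ <;> simp [Set.indicator, h]
    have h2 : (2 / 3 : ENNReal) + μ.toOuterMeasure {P | ¬ good P τ} ≤ 2 / 3 + 1 / 3 := by
      calc (2 / 3 : ENNReal) + μ.toOuterMeasure {P | ¬ good P τ}
          ≤ μ.toOuterMeasure {P | good P τ} +
            μ.toOuterMeasure {P | ¬ good P τ} := by gcongr; exact hx τ
        _ = 1 := h1
        _ = 2 / 3 + 1 / 3 := by
            rw [← ENNReal.add_div]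
            norm_num
            rw [ENNReal.div_self (by norm_num) (by norm_num)]
    exact (ENNReal.add_le_add_iff_left (ENNReal.div_ne_top (by norm_num) (by norm_num))).1 h2
  have hlow : ((Fintype.card T : ENNReal) + 1) ≤
      ∑' P, μ P * (3 * ((Finset.univ.filter fun τ => ¬ good P τ).card : ENNReal)) := by
    calc ((Fintype.card T : ENNReal) + 1) = ∑' P, μ P * ((Fintype.card T : ENNReal) + 1) := by
          rw [ENNReal.tsum_mul_right, PMF.tsum_coe, one_mul]
      _ ≤ _ := by
          apply ENNReal.tsum_le_tsum
          intro P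
          by_cases hP : μ P = 0
          · simp [hP]
          · have h1 := hcon P ((PMF.mem_support_iff μ P).2 hP)
            gcongr
            exact_mod_cast h1
  have hup : ∑' P, μ P * (3 * ((Finset.univ.filter fun τ => ¬ good P τ).card : ENNReal))
      ≤ Fintype.card T := by
    have h1 : ∀ P : Ω,
        μ P * (3 * ((Finset.univ.filter fun τ => ¬ good P τ).card : ENNReal)) =
        3 * ∑ τ : T, {P | ¬ good P τ}.indicator μ P := by
      intro P
      rw [Finset.card_filter]
      push_cast
      rw [← mul_assoc, mul_comm (μ P) 3, mul_assoc, Finset.mul_sum]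
      congr 1
      apply Finset.sum_congr rfl
      intro τ _
      by_cases h : good P τ <;> simp [Set.indicator, h]
    calc ∑' P, μ P * (3 * ((Finset.univ.filter fun τ => ¬ good P τ).card : ENNReal))
        = ∑' P, 3 * ∑ τ : T, {P | ¬ good P τ}.indicator μ P := by
          congr 1
          funext P
          exact h1 P
      _ = 3 * ∑ τ : T, μ.toOuterMeasure {P | ¬ good P τ} := by
          rw [ENNReal.tsum_mul_left, Summable.tsum_finsetSum (fun _ _ => ENNReal.summable)]
          simp only [PMF.toOuterMeasure_apply]
      _ ≤ 3 * ∑ _τ : T, (1 / 3 : ENNReal) := by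
          gcongr with τ _
          exact herr τ
      _ = Fintype.card T := by
          rw [Finset.sum_const, Finset.card_univ, nsmul_eq_mul, mul_comm, mul_assoc]
          rw [ENNReal.div_mul_cancel (by norm_num) (by norm_num), mul_one]
  have h3 := hlow.trans hup
  have h4 : (Fintype.card T + 1 : ℕ) ≤ Fintype.card T := by exact_mod_cast h3
  omega

end Pool.Agent.H58.PM
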