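import Mathlib

set_option autoImplicit false

/-!
# Many independent tests
-/

namespace Pool.Agent.H58.PM

open Finset

variable {Ω : Type} [Fintype Ω]

/-- The number of successes. -/
def succ {q : ℕ} (S : Ω → Prop) [DecidablePred S] (f : Fin q → Ω) : ℕ :=
  (Finset.univ.filter fun j => S (f j)).card

theorem sum_pow_succ {q : ℕ} (S : Ω → Prop) [DecidablePred S] (z : ℝ) :
    ∑ f : Fin q → Ω, z ^ succ S f =
      ((Fintype.card Ω : ℝ) + (z - 1) * (Finset.univ.filter fun ω => S ω).card) ^ q := by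
  have h1 : ∀ f : Fin q → Ω, z ^ succ S f = ∏ j, if S (f j) then z else 1 := by
    intro f
    unfold succ
    rw [Finset.prod_ite, Finset.prod_const, Finset.prod_const_one, mul_one]
  simp_rw [h1]
  classical
  rw [← Fintype.piFinset_univ, ← Finset.prod_univ_sum (fun _ : Fin q => (Finset.univ : Finset Ω))
    (fun _ ω => if S ω then z else 1)]
  rw [Finset.prod_const, Finset.card_univ, Fintype.card_fin]
  congr 1
  rw [Finset.sum_ite, Finset.sum_const, Finset.sum_const, nsmul_eq_mul, nsmul_eq_mul, mul_one]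
  have h2 := Finset.card_filter_add_card_filter_not (s := (Finset.univ : Finset Ω)) (fun ω => S ω)
  rw [Finset.card_univ] at h2
  have h3 : ((Finset.univ.filter fun ω => S ω).card : ℝ) +
      (Finset.univ.filter fun ω => ¬ S ω).card = Fintype.card Ω := by exact_mod_cast h2
  rw [← h3]
  ring

/-- Few tests are positive if all tests are positive with probability at most `1/64`. -/
theorem card_many {q' : ℕ} (S : Ω → Prop) [DecidablePred S]
    (h : 64 * (Finset.univ.filter fun ω => S ω).card ≤ Fintype.card Ω) :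
    ((Finset.univ.filter fun f : Fin (8 * q') → Ω => q' ≤ succ S f).card : ℝ) ≤
      (7 / 10) ^ q' * (Fintype.card Ω : ℝ) ^ (8 * q') := by
  have h0 : (64 : ℝ) * (Finset.univ.filter fun ω => S ω).card ≤ Fintype.card Ω := by
    exact_mod_cast h
  have h1 : (2 : ℝ) ^ q' * (Finset.univ.filter fun f : Fin (8 * q') → Ω => q' ≤ succ S f).card ≤
      ∑ f : Fin (8 * q') → Ω, (2 : ℝ) ^ succ S f := by
    calc (2 : ℝ) ^ q' * (Finset.univ.filter fun f : Fin (8 * q') → Ω => q' ≤ succ S f).card
        = ∑ f ∈ Finset.univ.filter fun f : Fin (8 * q') → Ω => q' ≤ succ S f, (2 : ℝ) ^ q' := by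
          rw [Finset.sum_const, nsmul_eq_mul, mul_comm]
      _ ≤ ∑ f ∈ Finset.univ.filter fun f : Fin (8 * q') → Ω => q' ≤ succ S f,
            (2 : ℝ) ^ succ S f := by
          apply Finset.sum_le_sum
          intro f hf
          exact pow_le_pow_right₀ (by norm_num) (Finset.mem_filter.1 hf).2
      _ ≤ _ := by
          apply Finset.sum_le_sum_of_subset_of_nonneg (Finset.subset_univ _)
          intro f _ _
          positivity
  rw [sum_pow_succ] at h1
  have h2 : ((Fintype.card Ω : ℝ) + (2 - 1) * (Finset.univ.filter fun ω => S ω).card) ^ (8 * q') ≤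
      ((65 / 64) * (Fintype.card Ω : ℝ)) ^ (8 * q') := by
    apply pow_le_pow_left₀ (by positivity)
    linarith
  have h3 : ((65 / 64) * (Fintype.card Ω : ℝ)) ^ (8 * q') ≤
      2 ^ q' * ((7 / 10) ^ q' * (Fintype.card Ω : ℝ) ^ (8 * q')) := by
    have h5 : (65 / 64 : ℝ) ^ (8 * q') ≤ (2 : ℝ) ^ q' * (7 / 10) ^ q' := by
      rw [← mul_pow, pow_mul]
      apply pow_le_pow_left₀ (by positivity)
      norm_num
    rw [mul_pow (65 / 64 : ℝ), ← mul_assoc]
    exact mul_le_mul_of_nonneg_right h5 (by positivity)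
  have h4 := h1.trans (h2.trans h3)
  exact le_of_mul_le_mul_left h4 (by positivity)

/-- Many tests are positive if all tests are positive with probability at least `1/4`. -/
theorem card_few {q' : ℕ} (S : Ω → Prop) [DecidablePred S]
    (h : Fintype.card Ω ≤ 4 * (Finset.univ.filter fun ω => S ω).card) :
    ((Finset.univ.filter fun f : Fin (8 * q') → Ω => ¬ q' ≤ succ S f).card : ℝ) ≤
      (7 / 10) ^ q' * (Fintype.card Ω : ℝ) ^ (8 * q') := by
  have h0 : (Fintype.card Ω : ℝ) ≤ 4 * (Finset.univ.filter fun ω => S ω).card := by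
    exact_mod_cast h
  have h1 : (1 / 2 : ℝ) ^ q' *
      (Finset.univ.filter fun f : Fin (8 * q') → Ω => ¬ q' ≤ succ S f).card ≤
      ∑ f : Fin (8 * q') → Ω, (1 / 2 : ℝ) ^ succ S f := by
    calc (1 / 2 : ℝ) ^ q' * (Finset.univ.filter fun f : Fin (8 * q') → Ω => ¬ q' ≤ succ S f).card
        = ∑ f ∈ Finset.univ.filter fun f : Fin (8 * q') → Ω => ¬ q' ≤ succ S f,
            (1 / 2 : ℝ) ^ q' := by
          rw [Finset.sum_const, nsmul_eq_mul, mul_comm]
      _ ≤ ∑ f ∈ Finset.univ.filter fun f : Fin (8 * q') → Ω => ¬ q' ≤ succ S f,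
            (1 / 2 : ℝ) ^ succ S f := by
          apply Finset.sum_le_sum
          intro f hf
          have h2 := (Finset.mem_filter.1 hf).2
          push Not at h2
          exact pow_le_pow_of_le_one (by norm_num) (by norm_num) h2.le
      _ ≤ _ := by
          apply Finset.sum_le_sum_of_subset_of_nonneg (Finset.subset_univ _)
          intro f _ _
          positivity
  rw [sum_pow_succ] at h1
  have hle : ((Finset.univ.filter fun ω => S ω).card : ℝ) ≤ Fintype.card Ω := by
    have : (Finset.univ.filter fun ω => S ω).card ≤ Fintype.card Ω := Finset.card_le_univ _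
    exact_mod_cast this
  have h2 : ((Fintype.card Ω : ℝ) + (1 / 2 - 1) * (Finset.univ.filter fun ω => S ω).card) ^
      (8 * q') ≤ ((7 / 8) * (Fintype.card Ω : ℝ)) ^ (8 * q') := by
    apply pow_le_pow_left₀
    · have h5 : (0 : ℝ) ≤ (Finset.univ.filter fun ω => S ω).card := Nat.cast_nonneg _
      linarith
    · linarith
  have h3 : ((7 / 8) * (Fintype.card Ω : ℝ)) ^ (8 * q') ≤
      (1 / 2) ^ q' * ((7 / 10) ^ q' * (Fintype.card Ω : ℝ) ^ (8 * q')) := by
    have h5 : (7 / 8 : ℝ) ^ (8 * q') ≤ (1 / 2 : ℝ) ^ q' * (7 / 10) ^ q' := by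
      rw [← mul_pow, pow_mul]
      apply pow_le_pow_left₀ (by positivity)
      norm_num
    rw [mul_pow (7 / 8 : ℝ), ← mul_assoc]
    exact mul_le_mul_of_nonneg_right h5 (by positivity)
  have h4 := h1.trans (h2.trans h3)
  exact le_of_mul_le_mul_left h4 (by positivity)

end Pool.Agent.H58.PM
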