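import Mathlib

set_option autoImplicit false

/-!
# Random polynomials of Razborov and Smolensky for groups of vectors
-/

namespace Pool.Agent.H58.PM

open Finset

theorem zmod2_cases (x : ZMod 2) : x = 0 ∨ x = 1 := by
  revert x; decide

theorem zmod2_ne_zero (x : ZMod 2) : x ≠ 0 ↔ x = 1 := by
  revert x; decide

/-- A function which is toggled by toggling one coordinate is nonzero exactly half of the time. -/
theorem card_half {ι : Type} [Fintype ι] [DecidableEq ι] (k0 : ι) (f : (ι → ZMod 2) → ZMod 2)
    (hf : ∀ x, f (Function.update x k0 (x k0 + 1)) = f x + 1) :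
    2 * (Finset.univ.filter fun x => f x ≠ 0).card = 2 ^ Fintype.card ι := by
  have h1 : (Finset.univ.filter fun x => f x ≠ 0).card =
      (Finset.univ.filter fun x => ¬ f x ≠ 0).card := by
    refine Finset.card_bij (fun x _ => Function.update x k0 (x k0 + 1)) ?_ ?_ ?_
    · intro x hx
      have h2 := (Finset.mem_filter.1 hx).2
      rw [zmod2_ne_zero] at h2
      rw [Finset.mem_filter, hf, h2]
      exact ⟨Finset.mem_univ _, by decide⟩
    · intro x _ y _ hxy
      funext k
      have h2 := congrFun hxy k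
      by_cases hk : k = k0
      · subst hk
        rw [Function.update_self, Function.update_self] at h2
        exact add_right_cancel h2
      · rwa [Function.update_of_ne hk, Function.update_of_ne hk] at h2
    · intro y hy
      have h2 := (Finset.mem_filter.1 hy).2
      refine ⟨Function.update y k0 (y k0 + 1), ?_, ?_⟩
      · rw [Finset.mem_filter, hf]
        refine ⟨Finset.mem_univ _, ?_⟩
        rw [not_not] at h2
        rw [h2]
        decide
      · have h3 : ∀ z : ZMod 2, z + 1 + 1 = z := by decide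
        rw [Function.update_self, Function.update_idem, h3, Function.update_eq_self]
  have h2 : (Finset.univ.filter fun x => f x ≠ 0).card +
      (Finset.univ.filter fun x => ¬ f x ≠ 0).card = 2 ^ Fintype.card ι := by
    rw [Finset.card_filter_add_card_filter_not, Finset.card_univ, Fintype.card_fun, ZMod.card]
  omega

variable {d s t : ℕ}

/-- The indicator of a bit. -/
def bit (a : Bool) : ZMod 2 := if a then 1 else 0

/-- The random polynomial which approximates orthogonality. -/
def apx (ρ : Fin t → Fin d → ZMod 2) (a b : Fin d → Bool) : ZMod 2 :=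
  ∏ e, (1 + ∑ k, ρ e k * (bit (a k) * bit (b k)))

theorem apx_of_orth (ρ : Fin t → Fin d → ZMod 2) {a b : Fin d → Bool}
    (h : ∀ k, ¬ (a k = true ∧ b k = true)) : apx ρ a b = 1 := by
  unfold apx
  apply Finset.prod_eq_one
  intro e _
  rw [Finset.sum_eq_zero, add_zero]
  intro k _
  have h1 := h k
  unfold bit
  cases ha : a k <;> cases hb : b k <;> simp_all

/-- The random polynomial is nonzero for a pair which is not orthogonal with probability
`2 ^ (-t)`. -/
theorem card_apx {a b : Fin d → Bool} (h : ∃ k, a k = true ∧ b k = true) :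
    2 ^ t * (Finset.univ.filter fun ρ : Fin t → Fin d → ZMod 2 => apx ρ a b ≠ 0).card =
      Fintype.card (Fin t → Fin d → ZMod 2) := by
  obtain ⟨k0, ha, hb⟩ := h
  have h1 : (Finset.univ.filter fun ρ : Fin t → Fin d → ZMod 2 => apx ρ a b ≠ 0) =
      Fintype.piFinset (fun _ : Fin t => Finset.univ.filter fun x : Fin d → ZMod 2 =>
        1 + ∑ k, x k * (bit (a k) * bit (b k)) ≠ 0) := by
    ext ρ
    rw [Fintype.mem_piFinset]
    simp only [Finset.mem_filter, Finset.mem_univ, true_and]
    unfold apx
    rw [Finset.prod_ne_zero_iff]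
    simp
  have h2 : 2 * (Finset.univ.filter fun x : Fin d → ZMod 2 =>
        1 + ∑ k, x k * (bit (a k) * bit (b k)) ≠ 0).card = 2 ^ d := by
    have h3 := card_half k0 (fun x : Fin d → ZMod 2 => 1 + ∑ k, x k * (bit (a k) * bit (b k)))
      (by
        intro x
        have h4 : ∑ k, Function.update x k0 (x k0 + 1) k * (bit (a k) * bit (b k)) =
            ∑ k, x k * (bit (a k) * bit (b k)) + 1 := by
          rw [← Finset.add_sum_erase _ _ (Finset.mem_univ k0),
            ← Finset.add_sum_erase _ (fun k => x k * (bit (a k) * bit (b k)))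
              (Finset.mem_univ k0), Function.update_self]
          have h5 : ∑ k ∈ Finset.univ.erase k0,
              Function.update x k0 (x k0 + 1) k * (bit (a k) * bit (b k)) =
              ∑ k ∈ Finset.univ.erase k0, x k * (bit (a k) * bit (b k)) := by
            apply Finset.sum_congr rfl
            intro k hk
            rw [Function.update_of_ne (Finset.ne_of_mem_erase hk)]
          rw [h5, ha, hb]
          unfold bit
          simp only [if_true]
          ring
        simp only [h4]
        ring)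
    rw [Fintype.card_fin] at h3
    exact h3
  rw [h1, Fintype.card_piFinset, Finset.prod_const, Finset.card_univ, Fintype.card_fin, ← mul_pow,
    h2, Fintype.card_fun, Fintype.card_fun, ZMod.card, Fintype.card_fin, Fintype.card_fin]

/-- The random choices for one form. -/
abbrev Om (d s t : ℕ) : Type := (Fin t → Fin d → ZMod 2) × (Fin s → ZMod 2) × (Fin s → ZMod 2)

/-- The random form of two groups. -/
def form (ω : Om d s t) (X Y : Fin s → Fin d → Bool) : ZMod 2 :=
  ∑ a, ∑ b, ω.2.1 a * ω.2.2 b * apx ω.1 (X a) (Y b)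

/-- If no pair is orthogonal the form is rarely nonzero. -/
theorem card_form_no {X Y : Fin s → Fin d → Bool}
    (h : ∀ a b, ∃ k, X a k = true ∧ Y b k = true) :
    2 ^ t * (Finset.univ.filter fun ω : Om d s t => form ω X Y ≠ 0).card ≤
      s ^ 2 * Fintype.card (Om d s t) := by
  have h1 : (Finset.univ.filter fun ω : Om d s t => form ω X Y ≠ 0) ⊆
      (Finset.univ : Finset (Fin s × Fin s)).biUnion fun ab =>
        (Finset.univ.filter fun ρ : Fin t → Fin d → ZMod 2 => apx ρ (X ab.1) (Y ab.2) ≠ 0) ×ˢ
          (Finset.univ : Finset ((Fin s → ZMod 2) × (Fin s → ZMod 2))) := by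
    intro ω hω
    have h2 := (Finset.mem_filter.1 hω).2
    obtain ⟨a, ha⟩ : ∃ a, ∑ b, ω.2.1 a * ω.2.2 b * apx ω.1 (X a) (Y b) ≠ 0 := by
      by_contra hcon
      push Not at hcon
      exact h2 (Finset.sum_eq_zero fun a _ => hcon a)
    obtain ⟨b, hb⟩ : ∃ b, ω.2.1 a * ω.2.2 b * apx ω.1 (X a) (Y b) ≠ 0 := by
      by_contra hcon
      push Not at hcon
      exact ha (Finset.sum_eq_zero fun b _ => hcon b)
    refine Finset.mem_biUnion.2 ⟨(a, b), Finset.mem_univ _, ?_⟩
    rw [Finset.mem_product]
    exact ⟨Finset.mem_filter.2 ⟨Finset.mem_univ _, right_ne_zero_of_mul hb⟩, Finset.mem_univ _⟩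
  calc 2 ^ t * (Finset.univ.filter fun ω : Om d s t => form ω X Y ≠ 0).card
      ≤ 2 ^ t * ∑ ab : Fin s × Fin s,
        ((Finset.univ.filter fun ρ : Fin t → Fin d → ZMod 2 => apx ρ (X ab.1) (Y ab.2) ≠ 0) ×ˢ
          (Finset.univ : Finset ((Fin s → ZMod 2) × (Fin s → ZMod 2)))).card :=
        Nat.mul_le_mul_left _ ((Finset.card_le_card h1).trans Finset.card_biUnion_le)
    _ = ∑ _ab : Fin s × Fin s, Fintype.card (Om d s t) := by
        rw [Finset.mul_sum]
        apply Finset.sum_congr rfl
        intro ab _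
        rw [Finset.card_product, ← mul_assoc, card_apx (h ab.1 ab.2), Finset.card_univ,
          ← Fintype.card_prod]
    _ = s ^ 2 * Fintype.card (Om d s t) := by
        rw [Finset.sum_const, Finset.card_univ, Fintype.card_prod, Fintype.card_fin, smul_eq_mul,
          sq]

/-- For a fixed nonzero matrix a random bilinear form is nonzero with probability `1/4`. -/
theorem card_bilin (M : Fin s → Fin s → ZMod 2) {a0 b0 : Fin s} (h : M a0 b0 = 1) :
    2 ^ s * 2 ^ s ≤ 4 * (Finset.univ.filter fun στ : (Fin s → ZMod 2) × (Fin s → ZMod 2) =>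
      ∑ a, ∑ b, στ.1 a * στ.2 b * M a b ≠ 0).card := by
  have hσ : 2 * (Finset.univ.filter fun σ : Fin s → ZMod 2 => ∑ a, σ a * M a b0 ≠ 0).card =
      2 ^ s := by
    have h3 := card_half a0 (fun σ : Fin s → ZMod 2 => ∑ a, σ a * M a b0) (by
      intro x
      rw [← Finset.add_sum_erase _ _ (Finset.mem_univ a0),
        ← Finset.add_sum_erase _ (fun a => x a * M a b0) (Finset.mem_univ a0),
        Function.update_self]
      have h5 : ∑ a ∈ Finset.univ.erase a0, Function.update x a0 (x a0 + 1) a * M a b0 =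
          ∑ a ∈ Finset.univ.erase a0, x a * M a b0 := by
        apply Finset.sum_congr rfl
        intro k hk
        rw [Function.update_of_ne (Finset.ne_of_mem_erase hk)]
      rw [h5, h]
      ring)
    rw [Fintype.card_fin] at h3
    exact h3
  have hτ : ∀ σ : Fin s → ZMod 2, ∑ a, σ a * M a b0 ≠ 0 →
      2 * (Finset.univ.filter fun τ : Fin s → ZMod 2 => ∑ a, ∑ b, σ a * τ b * M a b ≠ 0).card =
      2 ^ s := by
    intro σ hσ0
    rw [zmod2_ne_zero] at hσ0
    have h6 : ∀ τ : Fin s → ZMod 2, ∑ a, ∑ b, σ a * τ b * M a b =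
        ∑ b, τ b * ∑ a, σ a * M a b := by
      intro τ
      rw [Finset.sum_comm]
      apply Finset.sum_congr rfl
      intro b _
      rw [Finset.mul_sum]
      apply Finset.sum_congr rfl
      intro a _
      ring
    simp_rw [h6]
    have h3 := card_half b0 (fun τ : Fin s → ZMod 2 => ∑ b, τ b * ∑ a, σ a * M a b) (by
      intro x
      rw [← Finset.add_sum_erase _ _ (Finset.mem_univ b0),
        ← Finset.add_sum_erase _ (fun b => x b * ∑ a, σ a * M a b) (Finset.mem_univ b0),
        Function.update_self]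
      have h5 : ∑ b ∈ Finset.univ.erase b0,
          Function.update x b0 (x b0 + 1) b * ∑ a, σ a * M a b =
          ∑ b ∈ Finset.univ.erase b0, x b * ∑ a, σ a * M a b := by
        apply Finset.sum_congr rfl
        intro k hk
        rw [Function.update_of_ne (Finset.ne_of_mem_erase hk)]
      rw [h5, hσ0]
      ring)
    rw [Fintype.card_fin] at h3
    exact h3
  have h1 : (Finset.univ.filter fun στ : (Fin s → ZMod 2) × (Fin s → ZMod 2) =>
      ∑ a, ∑ b, στ.1 a * στ.2 b * M a b ≠ 0).card = ∑ σ : Fin s → ZMod 2,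
      (Finset.univ.filter fun τ : Fin s → ZMod 2 => ∑ a, ∑ b, σ a * τ b * M a b ≠ 0).card := by
    rw [Finset.card_filter, Fintype.sum_prod_type]
    apply Finset.sum_congr rfl
    intro σ _
    rw [Finset.card_filter]
  rw [h1]
  have h2 : ∑ σ ∈ Finset.univ.filter fun σ : Fin s → ZMod 2 => ∑ a, σ a * M a b0 ≠ 0, 2 ^ s ≤
      2 * ∑ σ : Fin s → ZMod 2, (Finset.univ.filter fun τ : Fin s → ZMod 2 =>
        ∑ a, ∑ b, σ a * τ b * M a b ≠ 0).card := by
    rw [Finset.mul_sum]
    calc ∑ σ ∈ Finset.univ.filter fun σ : Fin s → ZMod 2 => ∑ a, σ a * M a b0 ≠ 0, 2 ^ s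
        = ∑ σ ∈ Finset.univ.filter fun σ : Fin s → ZMod 2 => ∑ a, σ a * M a b0 ≠ 0,
          2 * (Finset.univ.filter fun τ : Fin s → ZMod 2 =>
            ∑ a, ∑ b, σ a * τ b * M a b ≠ 0).card := by
          apply Finset.sum_congr rfl
          intro σ hσ1
          exact (hτ σ (Finset.mem_filter.1 hσ1).2).symm
      _ ≤ _ := Finset.sum_le_sum_of_subset (Finset.subset_univ _)
  rw [Finset.sum_const, smul_eq_mul] at h2
  calc 2 ^ s * 2 ^ s = 2 * ((Finset.univ.filter fun σ : Fin s → ZMod 2 =>
        ∑ a, σ a * M a b0 ≠ 0).card * 2 ^ s) := by rw [← mul_assoc, hσ]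
    _ ≤ 2 * (2 * ∑ σ : Fin s → ZMod 2, (Finset.univ.filter fun τ : Fin s → ZMod 2 =>
        ∑ a, ∑ b, σ a * τ b * M a b ≠ 0).card) := Nat.mul_le_mul_left _ h2
    _ = _ := by ring

/-- If some pair is orthogonal the form is nonzero with probability at least `1/4`. -/
theorem card_form_yes {X Y : Fin s → Fin d → Bool} {a0 b0 : Fin s}
    (h : ∀ k, ¬ (X a0 k = true ∧ Y b0 k = true)) :
    Fintype.card (Om d s t) ≤
      4 * (Finset.univ.filter fun ω : Om d s t => form ω X Y ≠ 0).card := by
  have h1 : (Finset.univ.filter fun ω : Om d s t => form ω X Y ≠ 0).card =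
      ∑ ρ : Fin t → Fin d → ZMod 2,
        (Finset.univ.filter fun στ : (Fin s → ZMod 2) × (Fin s → ZMod 2) =>
          ∑ a, ∑ b, στ.1 a * στ.2 b * apx ρ (X a) (Y b) ≠ 0).card := by
    rw [Finset.card_filter, Fintype.sum_prod_type]
    apply Finset.sum_congr rfl
    intro ρ _
    rw [Finset.card_filter]
    rfl
  rw [h1, Finset.mul_sum]
  calc Fintype.card (Om d s t) = ∑ _ρ : Fin t → Fin d → ZMod 2, 2 ^ s * 2 ^ s := by
        rw [Finset.sum_const, Finset.card_univ, smul_eq_mul, Fintype.card_prod, Fintype.card_prod,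
          Fintype.card_fun (α := Fin s), ZMod.card, Fintype.card_fin]
    _ ≤ _ := by
        apply Finset.sum_le_sum
        intro ρ _
        exact card_bilin (fun a b => apx ρ (X a) (Y b)) (apx_of_orth ρ h)

end Pool.Agent.H58.PM
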