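import Mathlib
import Pool.Agent.H58.PM.UpCount

set_option autoImplicit false

/-!
# Products of few affine forms are combinations of short monomials
-/

namespace Pool.Agent.H58.PM

variable {d s t : ℕ}

/-- A monomial. -/
def mono (T : Finset (Fin d)) : (Fin d → Bool) → ZMod 2 := fun v => ∏ k ∈ T, bit (v k)

/-- The combinations of the monomials of degree at most `t`. -/
def Low (d t : ℕ) : Submodule (ZMod 2) ((Fin d → Bool) → ZMod 2) :=
  Submodule.span (ZMod 2) (Set.range fun T : {T : Finset (Fin d) // T.card ≤ t} => mono T.1)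

theorem mono_mem {T : Finset (Fin d)} (h : T.card ≤ t) : mono T ∈ Low d t :=
  Submodule.subset_span ⟨⟨T, h⟩, rfl⟩

theorem bit_mul_self (a : Bool) : bit a * bit a = bit a := by
  cases a <;> decide

theorem bit_mul_mono (k : Fin d) (T : Finset (Fin d)) :
    (fun v : Fin d → Bool => bit (v k) * mono T v) = mono (insert k T) := by
  funext v
  unfold mono
  by_cases hk : k ∈ T
  · rw [Finset.insert_eq_of_mem hk, ← Finset.mul_prod_erase T (fun k => bit (v k)) hk, ← mul_assoc,
      bit_mul_self]
  · rw [Finset.prod_insert hk]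

theorem low_mono {t t' : ℕ} (h : t ≤ t') : Low d t ≤ Low d t' := by
  unfold Low
  rw [Submodule.span_le]
  rintro _ ⟨T, rfl⟩
  exact mono_mem (T.2.trans h)

theorem mul_bit_mem {φ : (Fin d → Bool) → ZMod 2} (h : φ ∈ Low d t) (k : Fin d) :
    (fun v : Fin d → Bool => bit (v k) * φ v) ∈ Low d (t + 1) := by
  unfold Low at h
  induction h using Submodule.span_induction with
  | mem x hx =>
      obtain ⟨T, rfl⟩ := hx
      simp only
      rw [bit_mul_mono]
      apply mono_mem
      exact (Finset.card_insert_le _ _).trans (Nat.succ_le_succ T.2)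
  | zero =>
      have : (fun v : Fin d → Bool => bit (v k) * (0 : (Fin d → Bool) → ZMod 2) v) = 0 := by
        funext v
        simp
      rw [this]
      exact Submodule.zero_mem _
  | add x y _ _ hx hy =>
      have : (fun v : Fin d → Bool => bit (v k) * (x + y) v) =
          (fun v => bit (v k) * x v) + fun v => bit (v k) * y v := by
        funext v
        simp only [Pi.add_apply]
        ring
      rw [this]
      exact Submodule.add_mem _ hx hy
  | smul a x _ hx =>
      have : (fun v : Fin d → Bool => bit (v k) * (a • x) v) = a • fun v => bit (v k) * x v := by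
        funext v
        simp only [Pi.smul_apply, smul_eq_mul]
        ring
      rw [this]
      exact Submodule.smul_mem _ _ hx

theorem mul_affine_mem {φ : (Fin d → Bool) → ZMod 2} (h : φ ∈ Low d t) (β : Fin d → ZMod 2) :
    (fun v : Fin d → Bool => (1 + ∑ k, β k * bit (v k)) * φ v) ∈ Low d (t + 1) := by
  have h1 : (fun v : Fin d → Bool => (1 + ∑ k, β k * bit (v k)) * φ v) =
      φ + ∑ k, β k • fun v : Fin d → Bool => bit (v k) * φ v := by
    funext v
    rw [Pi.add_apply, Finset.sum_apply, add_mul, one_mul, Finset.sum_mul]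
    congr 1
    apply Finset.sum_congr rfl
    intro k _
    rw [Pi.smul_apply, smul_eq_mul]
    ring
  rw [h1]
  refine Submodule.add_mem _ (low_mono (Nat.le_succ t) h) (Submodule.sum_mem _ fun k _ => ?_)
  exact Submodule.smul_mem _ _ (mul_bit_mem h k)

theorem apx_mem (ρ : Fin t → Fin d → ZMod 2) (b : Fin d → Bool) :
    (fun v : Fin d → Bool => apx ρ v b) ∈ Low d t := by
  induction t with
  | zero =>
      have : (fun v : Fin d → Bool => apx ρ v b) = mono ∅ := by
        funext v
        simp [apx, mono]
      rw [this]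
      exact mono_mem (by simp)
  | succ t ih =>
      have h1 : (fun v : Fin d → Bool => apx ρ v b) = fun v : Fin d → Bool =>
          (1 + ∑ k, (ρ 0 k * bit (b k)) * bit (v k)) * apx (fun e : Fin t => ρ e.succ) v b := by
        funext v
        unfold apx
        rw [Fin.prod_univ_succ]
        congr 2
        apply Finset.sum_congr rfl
        intro k _
        ring
      rw [h1]
      exact mul_affine_mem (ih fun e => ρ e.succ) _

/-- The coefficients. -/
theorem exists_coef (ρ : Fin t → Fin d → ZMod 2) (τ : Fin s → ZMod 2) (Y : Fin s → Fin d → Bool) :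
    ∃ c : {T : Finset (Fin d) // T.card ≤ t} → ZMod 2, ∀ v : Fin d → Bool,
      ∑ b, τ b * apx ρ v (Y b) = ∑ T, mono T.1 v * c T := by
  have h1 : (∑ b, τ b • fun v : Fin d → Bool => apx ρ v (Y b)) ∈ Low d t :=
    Submodule.sum_mem _ fun b _ => Submodule.smul_mem _ _ (apx_mem ρ (Y b))
  obtain ⟨c, hc⟩ := (Submodule.mem_span_range_iff_exists_fun (ZMod 2)).1 h1
  refine ⟨c, fun v => ?_⟩
  have h2 := congrFun hc v
  rw [Finset.sum_apply, Finset.sum_apply] at h2
  simp only [Pi.smul_apply, smul_eq_mul] at h2
  rw [← h2]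
  apply Finset.sum_congr rfl
  intro T _
  ring

/-- The coefficients of a random form. -/
noncomputable def coef (ρ : Fin t → Fin d → ZMod 2) (τ : Fin s → ZMod 2)
    (Y : Fin s → Fin d → Bool) : {T : Finset (Fin d) // T.card ≤ t} → ZMod 2 :=
  Classical.choose (exists_coef ρ τ Y)

theorem form_eq (ω : Om d s t) (X Y : Fin s → Fin d → Bool) :
    form ω X Y = ∑ aT : Fin s × {T : Finset (Fin d) // T.card ≤ t},
      mono aT.2.1 (X aT.1) * (ω.2.1 aT.1 * coef ω.1 ω.2.2 Y aT.2) := by
  unfold form
  rw [Fintype.sum_prod_type]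
  apply Finset.sum_congr rfl
  intro a _
  have h1 := Classical.choose_spec (exists_coef ω.1 ω.2.2 Y) (X a)
  calc ∑ b, ω.2.1 a * ω.2.2 b * apx ω.1 (X a) (Y b)
      = ω.2.1 a * ∑ b, ω.2.2 b * apx ω.1 (X a) (Y b) := by
        rw [Finset.mul_sum]
        apply Finset.sum_congr rfl
        intro b _
        ring
    _ = ω.2.1 a * ∑ T, mono T.1 (X a) * coef ω.1 ω.2.2 Y T := by
        rw [h1]
        rfl
    _ = _ := by
        rw [Finset.mul_sum]
        apply Finset.sum_congr rfl
        intro T _
        ring

end Pool.Agent.H58.PM
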