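import Mathlib

set_option autoImplicit false

/-!
# Numbers for the upper bound
-/

namespace Pool.Agent.H58.PM

open Finset

/-- The number of small sets. -/
theorem card_low {d r t : ℕ} (h : d ≤ 2 ^ r * t) :
    Fintype.card {T : Finset (Fin d) // T.card ≤ t} ≤ 2 ^ ((r + 2) * t) := by
  classical
  have hN : (0 : ℝ) < 2 ^ r := by positivity
  have h1 : ∑ T : Finset (Fin d), (1 / 2 ^ r : ℝ) ^ T.card = (1 / 2 ^ r + 1) ^ d := by
    have h2 := Finset.sum_pow_mul_eq_add_pow (1 / 2 ^ r : ℝ) 1 (Finset.univ : Finset (Fin d))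
    rw [Finset.card_univ, Fintype.card_fin, Finset.powerset_univ] at h2
    rw [← h2]
    apply Finset.sum_congr rfl
    intro T _
    rw [one_pow, mul_one]
  have h2 : (1 / 2 ^ r + 1 : ℝ) ^ d ≤ 4 ^ t := by
    calc (1 / 2 ^ r + 1 : ℝ) ^ d ≤ (1 / 2 ^ r + 1 : ℝ) ^ (2 ^ r * t) := by
          apply pow_le_pow_right₀ _ h
          have : (0 : ℝ) < 1 / 2 ^ r := by positivity
          linarith
      _ ≤ (Real.exp (1 / 2 ^ r)) ^ (2 ^ r * t) := by
          apply pow_le_pow_left₀ (by positivity)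
          exact Real.add_one_le_exp _
      _ = (Real.exp 1) ^ t := by
          rw [pow_mul, ← Real.exp_nat_mul]
          congr 2
          push_cast
          field_simp
      _ ≤ 4 ^ t := by
          apply pow_le_pow_left₀ (Real.exp_pos _).le
          have := Real.exp_one_lt_d9
          linarith
  have h3 : (1 / 2 ^ r : ℝ) ^ t * Fintype.card {T : Finset (Fin d) // T.card ≤ t} ≤ 4 ^ t := by
    rw [Fintype.card_subtype]
    calc (1 / 2 ^ r : ℝ) ^ t * (Finset.univ.filter fun T : Finset (Fin d) => T.card ≤ t).card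
        = ∑ T ∈ Finset.univ.filter fun T : Finset (Fin d) => T.card ≤ t,
            (1 / 2 ^ r : ℝ) ^ t := by
          rw [Finset.sum_const, nsmul_eq_mul, mul_comm]
      _ ≤ ∑ T ∈ Finset.univ.filter fun T : Finset (Fin d) => T.card ≤ t,
            (1 / 2 ^ r : ℝ) ^ T.card := by
          apply Finset.sum_le_sum
          intro T hT
          apply pow_le_pow_of_le_one (by positivity) _ (Finset.mem_filter.1 hT).2
          rw [div_le_one hN]
          exact one_le_pow₀ (by norm_num)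
      _ ≤ ∑ T : Finset (Fin d), (1 / 2 ^ r : ℝ) ^ T.card := by
          apply Finset.sum_le_sum_of_subset_of_nonneg (Finset.subset_univ _)
          intro T _ _
          positivity
      _ ≤ 4 ^ t := by rw [h1]; exact h2
  have h4 : (Fintype.card {T : Finset (Fin d) // T.card ≤ t} : ℝ) ≤ 2 ^ ((r + 2) * t) := by
    have h5 : (2 : ℝ) ^ ((r + 2) * t) = 4 ^ t * (2 ^ r) ^ t := by
      rw [show (4 : ℝ) = 2 ^ 2 by norm_num, ← pow_mul, ← pow_mul, ← pow_add]
      congr 1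
      ring
    have h6 : (1 / 2 ^ r : ℝ) ^ t * (2 ^ r) ^ t = 1 := by
      rw [← mul_pow, one_div, inv_mul_cancel₀ hN.ne', one_pow]
    calc (Fintype.card {T : Finset (Fin d) // T.card ≤ t} : ℝ)
        = (1 / 2 ^ r : ℝ) ^ t * Fintype.card {T : Finset (Fin d) // T.card ≤ t} * (2 ^ r) ^ t := by
          rw [mul_right_comm, h6, one_mul]
      _ ≤ 4 ^ t * (2 ^ r) ^ t := mul_le_mul_of_nonneg_right h3 (by positivity)
      _ = _ := h5.symm
  exact_mod_cast h4

/-- The parameters. -/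
theorem exists_params {c : ℝ} (hc : 2 ≤ c) : ∃ n0 : ℕ, 2 ≤ n0 ∧ ∀ n : ℕ, n0 ≤ n → ∃ g r : ℕ,
    2 ^ g ≤ n ∧
    c * Real.logb 2 n ≤ 2 ^ r * (2 * g + 6 : ℕ) ∧
    ((8 * (4 * Nat.clog 2 n + 4) : ℕ) : ℝ) ≤ n ^ (1 / Real.logb 2 c) ∧
    ((((n - 1) / 2 ^ g + 1 : ℕ) : ℝ) * ((n - 1) / 2 ^ g + 1 : ℕ) +
      (2 ^ g * 2 ^ ((r + 2) * (2 * g + 6)) : ℕ)) ≤ n ^ (2 - (1 / 64) / Real.logb 2 c) := by
  obtain ⟨Lc, hLc⟩ : ∃ Lc, Lc = Real.logb 2 c := ⟨_, rfl⟩
  have hcpos : 0 < c := by linarith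
  have hLc1 : 1 ≤ Lc := by
    rw [hLc, Real.le_logb_iff_rpow_le (by norm_num) hcpos]
    simpa using hc
  have hc2 : c = (2 : ℝ) ^ Lc := by
    rw [hLc, Real.rpow_logb (by norm_num) (by norm_num) hcpos]
  rw [← hLc]
  have hLc0 : 0 < Lc := by linarith
  -- largeness
  have hev1 : ∀ᶠ n : ℕ in Filter.atTop, 400 * Lc + 400 ≤ Real.logb 2 n := by
    have h1 : Filter.Tendsto (fun n : ℕ => Real.logb 2 n) Filter.atTop Filter.atTop :=
      (Real.tendsto_logb_atTop (by norm_num)).comp tendsto_natCast_atTop_atTop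
    exact h1.eventually_ge_atTop _
  have hev2 : ∀ᶠ n : ℕ in Filter.atTop, Real.logb 2 n ≤ 1 / 100 * (n : ℝ) ^ (1 / Lc) := by
    have h1 : (fun x : ℝ => Real.logb 2 x) =o[Filter.atTop] fun x => x ^ (1 / Lc) := by
      have h2 := isLittleO_log_rpow_atTop (show 0 < 1 / Lc by positivity)
      have h3 := h2.const_mul_left (Real.log 2)⁻¹
      refine h3.congr_left ?_
      intro x
      unfold Real.logb
      field_simp
    have h2 := h1.def (show (0 : ℝ) < 1 / 100 by norm_num)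
    have h3 := tendsto_natCast_atTop_atTop (R := ℝ) |>.eventually h2
    filter_upwards [h3] with n hn
    rw [Real.norm_eq_abs, Real.norm_of_nonneg (Real.rpow_nonneg (Nat.cast_nonneg _) _)] at hn
    exact (le_abs_self _).trans hn
  obtain ⟨n0, hn0⟩ := Filter.eventually_atTop.1 (hev1.and hev2)
  refine ⟨max n0 2, le_max_right _ _, fun n hn => ?_⟩
  obtain ⟨hA, hB⟩ := hn0 n ((le_max_left _ _).trans hn)
  have hn2 : 2 ≤ n := (le_max_right _ _).trans hn
  obtain ⟨ℓ, hℓ⟩ : ∃ ℓ, ℓ = Real.logb 2 n := ⟨_, rfl⟩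
  rw [← hℓ] at hA hB ⊢
  have hnpos : (0 : ℝ) < n := by exact_mod_cast (by omega : 0 < n)
  have hn1 : (1 : ℝ) ≤ n := by exact_mod_cast (by omega : 1 ≤ n)
  have hnℓ : (n : ℝ) = (2 : ℝ) ^ ℓ := by
    rw [hℓ, Real.rpow_logb (by norm_num) (by norm_num) hnpos]
  have hℓ0 : 0 < ℓ := by linarith
  obtain ⟨u, hu⟩ : ∃ u, u = ℓ / (64 * Lc) := ⟨_, rfl⟩
  have hu0 : 0 ≤ u := by rw [hu]; positivity
  have huℓ : u * Lc = ℓ / 64 := by rw [hu]; field_simp
  have huℓ2 : u ≤ ℓ / 64 := by nlinarith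
  obtain ⟨g, hg⟩ : ∃ g, g = ⌊u⌋₊ := ⟨_, rfl⟩
  have hg1 : (g : ℝ) ≤ u := by rw [hg]; exact Nat.floor_le hu0
  have hg2 : u < g + 1 := by rw [hg]; exact Nat.lt_floor_add_one _
  obtain ⟨r, hr⟩ : ∃ r, r = ⌈2 * Lc⌉₊ + 5 := ⟨_, rfl⟩
  have hr1 : 2 * Lc + 5 ≤ r := by
    rw [hr]
    push_cast
    have := Nat.le_ceil (2 * Lc)
    linarith
  have hr2 : (r : ℝ) ≤ 2 * Lc + 6 := by
    rw [hr]
    push_cast
    have := Nat.ceil_lt_add_one (show 0 ≤ 2 * Lc by positivity)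
    linarith
  have hgn : ((2 ^ g : ℕ) : ℝ) ≤ n := by
    push_cast
    rw [hnℓ, ← Real.rpow_natCast]
    apply Real.rpow_le_rpow_of_exponent_le (by norm_num)
    linarith
  refine ⟨g, r, ?_, ?_, ?_, ?_⟩
  · exact_mod_cast hgn
  · -- the dimension
    have h1 : c * ℓ ≤ (2 : ℝ) ^ (2 * Lc + 5) * (2 * u) := by
      have h2 : (2 : ℝ) ^ (2 * Lc + 5) = c * c * 32 := by
        rw [Real.rpow_add (by norm_num), hc2, two_mul, Real.rpow_add (by norm_num)]
        norm_num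
      have h3 : Lc ≤ c := by
        rw [hc2]
        have h4 := Real.add_one_le_exp (Lc * Real.log 2)
        have h5 : (2 : ℝ) ^ Lc = Real.exp (Lc * Real.log 2) := by
          rw [Real.rpow_def_of_pos (by norm_num), mul_comm]
        have h6 : Lc * Real.log 2 * 1 ≤ Real.exp (Lc * Real.log 2) := by linarith
        have h7 := Real.log_two_gt_d9
        -- `x ≤ 2 ^ x`
        have h8 : Lc < 2 ^ Lc := by
          have h9 : Lc / 2 + 1 / 2 ≤ (Real.exp (Lc * Real.log 2)) := by nlinarith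
          have h10 := Real.quadratic_le_exp_of_nonneg (show 0 ≤ Lc * Real.log 2 by positivity)
          rw [h5]
          refine lt_of_lt_of_le ?_ h10
          nlinarith [sq_nonneg (Lc * Real.log 2 - 1)]
        exact h8.le
      rw [h2]
      have h4 : ℓ = 64 * (u * Lc) := by rw [huℓ]; ring
      rw [h4]
      have h5 : 0 ≤ c * u := by positivity
      nlinarith
    have h2 : (2 : ℝ) ^ (2 * Lc + 5) ≤ 2 ^ r := by
      rw [← Real.rpow_natCast]
      exact Real.rpow_le_rpow_of_exponent_le (by norm_num) hr1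
    calc c * ℓ ≤ (2 : ℝ) ^ (2 * Lc + 5) * (2 * u) := h1
      _ ≤ 2 ^ r * (2 * g + 6 : ℕ) := by
          apply mul_le_mul h2 _ (by positivity) (by positivity)
          push_cast
          linarith
  · -- the number of tests
    have hclog : (Nat.clog 2 n : ℝ) ≤ ℓ + 1 := by
      have h1 : 2 ^ (Nat.clog 2 n - 1) < n := Nat.pow_pred_clog_lt_self (by norm_num) (by omega)
      have h2 : ((Nat.clog 2 n - 1 : ℕ) : ℝ) ≤ ℓ := by
        rw [hℓ, Real.le_logb_iff_rpow_le (by norm_num) hnpos, Real.rpow_natCast]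
        exact_mod_cast h1.le
      have h3 : (Nat.clog 2 n : ℝ) ≤ ((Nat.clog 2 n - 1 : ℕ) : ℝ) + 1 := by
        have : Nat.clog 2 n ≤ Nat.clog 2 n - 1 + 1 := by omega
        exact_mod_cast this
      linarith
    push_cast
    linarith
  · -- the cost
    have hp : (((n - 1) / 2 ^ g + 1 : ℕ) : ℝ) ≤ 4 * (2 : ℝ) ^ (ℓ - u) := by
      have h1 : (((n - 1) / 2 ^ g : ℕ) : ℝ) ≤ (n : ℝ) / 2 ^ g := by
        refine Nat.cast_div_le.trans ?_
        push_cast
        apply div_le_div_of_nonneg_right _ (by positivity)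
        exact_mod_cast Nat.sub_le n 1
      have h2 : (1 : ℝ) ≤ (n : ℝ) / 2 ^ g := by
        rw [le_div_iff₀ (by positivity), one_mul]
        exact_mod_cast hgn
      have h3 : (n : ℝ) / 2 ^ g ≤ 2 * (2 : ℝ) ^ (ℓ - u) := by
        rw [div_le_iff₀ (by positivity), hnℓ, ← Real.rpow_natCast (2 : ℝ) g]
        have h4 : 2 * (2 : ℝ) ^ (ℓ - u) * (2 : ℝ) ^ (g : ℝ) = (2 : ℝ) ^ (1 + (ℓ - u) + g) := by
          rw [Real.rpow_add (by norm_num), Real.rpow_add (by norm_num), Real.rpow_one]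
        rw [h4]
        apply Real.rpow_le_rpow_of_exponent_le (by norm_num)
        linarith
      push_cast
      linarith
    have hpp : (((n - 1) / 2 ^ g + 1 : ℕ) : ℝ) * ((n - 1) / 2 ^ g + 1 : ℕ) ≤
        (2 : ℝ) ^ (2 * ℓ - 2 * u + 4) := by
      calc (((n - 1) / 2 ^ g + 1 : ℕ) : ℝ) * ((n - 1) / 2 ^ g + 1 : ℕ)
          ≤ (4 * (2 : ℝ) ^ (ℓ - u)) * (4 * (2 : ℝ) ^ (ℓ - u)) := by gcongr
        _ = (2 : ℝ) ^ (2 * ℓ - 2 * u + 4) := by
          have h1 : (2 : ℝ) ^ (2 * ℓ - 2 * u + 4) = (2 : ℝ) ^ ((ℓ - u) + (ℓ - u) + 4) := by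
            congr 1; ring
          rw [h1, Real.rpow_add (by norm_num), Real.rpow_add (by norm_num)]
          norm_num
          ring
    have hm : ((2 ^ g * 2 ^ ((r + 2) * (2 * g + 6)) : ℕ) : ℝ) ≤ (2 : ℝ) ^ ℓ := by
      rw [← pow_add]
      push_cast
      rw [← Real.rpow_natCast]
      apply Real.rpow_le_rpow_of_exponent_le (by norm_num)
      push_cast
      have h1 : ((r : ℝ) + 2) * (2 * g + 6) ≤ (2 * Lc + 8) * (2 * u + 6) := by
        apply mul_le_mul (by linarith) (by linarith) (by positivity) (by linarith)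
      have h2 : (2 * Lc + 8) * (2 * u + 6) = 4 * (u * Lc) + 16 * u + 12 * Lc + 48 := by ring
      rw [h2, huℓ] at h1
      linarith
    have hu5 : 5 ≤ u := by
      rw [hu, le_div_iff₀ (by positivity)]
      linarith
    have h1 : (n : ℝ) ^ (2 - (1 / 64) / Lc) = (2 : ℝ) ^ (2 * ℓ - u) := by
      rw [hnℓ, ← Real.rpow_mul (by norm_num)]
      congr 1
      rw [hu]
      field_simp
    rw [h1]
    have h2 : (2 : ℝ) ^ (2 * ℓ - 2 * u + 4) ≤ (2 : ℝ) ^ (2 * ℓ - u - 1) := by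
      apply Real.rpow_le_rpow_of_exponent_le (by norm_num)
      linarith
    have h3 : (2 : ℝ) ^ ℓ ≤ (2 : ℝ) ^ (2 * ℓ - u - 1) := by
      apply Real.rpow_le_rpow_of_exponent_le (by norm_num)
      linarith
    have h4 : (2 : ℝ) ^ (2 * ℓ - u) = 2 * (2 : ℝ) ^ (2 * ℓ - u - 1) := by
      have h5 : (2 : ℝ) ^ (2 * ℓ - u) = (2 : ℝ) ^ (1 + (2 * ℓ - u - 1)) := by
        congr 1; ring
      rw [h5, Real.rpow_add (by norm_num), Real.rpow_one]
    linarith

end Pool.Agent.H58.PM
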